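import Pool.Agent.N990.OS.Gap
import Pool.Agent.N986.CL.Dir2

/-!
# Osterwalder–Schrader reconstruction of the continuum limit, and its mass gap
-/

set_option autoImplicit false
set_option linter.unusedSectionVars false

open MeasureTheory Set Filter Topology
open scoped Classical InnerProductSpace ComplexConjugate

namespace Pool.Agent.N990.OS

open Pool.Agent.N990 Pool.Agent.N990.C

noncomputable section

variable {n D : ℕ}

/-- **The reconstruction and the mass gap of the limit.** -/
theorem os_main0 (n : ℕ) (i : Fin D) :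
    (∃ (H : Type) (_ : NormedAddCommGroup H) (_ : InnerProductSpace ℂ H) (_ : CompleteSpace H)
      (T : ℝ → H →L[ℂ] H) (J : TD n D → H), IsOS i Sc T J) ∧
    ∀ (H : Type) [NormedAddCommGroup H] [InnerProductSpace ℂ H] [CompleteSpace H]
      (T : ℝ → H →L[ℂ] H) (J : TD n D → H), IsOS i Sc T J → IsSemi T (J 0) ∧
        (NotRate i → 1 ≤ n → MassGap T (J 0) (Real.pi / 2)) :=
  ⟨exists_isOS n i, fun H _ _ _ T J h => ⟨isSemi h, fun hnr hn => massGap hnr h hn⟩⟩

theorem notRate (hD : 2 ≤ D) (i : Fin D) : NotRate i := fun _ hm =>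
  Pool.Agent.N986.CL.not_rate_dir hD i hm

/-- **The reconstruction and the mass gap of the limit.** -/
theorem os_main (n : ℕ) (i : Fin D) :
    (∃ (H : Type) (_ : NormedAddCommGroup H) (_ : InnerProductSpace ℂ H) (_ : CompleteSpace H)
      (T : ℝ → H →L[ℂ] H) (J : TD n D → H), IsOS i Sc T J) ∧
    ∀ (H : Type) [NormedAddCommGroup H] [InnerProductSpace ℂ H] [CompleteSpace H]
      (T : ℝ → H →L[ℂ] H) (J : TD n D → H), IsOS i Sc T J → IsSemi T (J 0) ∧
        (2 ≤ D → 1 ≤ n → MassGap T (J 0) (Real.pi / 2)) :=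
  ⟨exists_isOS n i, fun H _ _ _ T J h => ⟨isSemi h, fun hD hn => massGap (notRate hD i) h hn⟩⟩

end

end Pool.Agent.N990.OS
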