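import Pool.Agent.N990.OS.Form
import Pool.Agent.N839.C.Decay

/-!
# Decay and continuity of the kernel
-/

set_option autoImplicit false
set_option linter.unusedSectionVars false
set_option linter.unusedVariables false

open MeasureTheory Set Filter Topology
open scoped Classical InnerProductSpace ComplexConjugate

namespace Pool.Agent.N990.OS

open Pool.Agent.N990 Pool.Agent.N990.C
open Pool.Agent.N839.C (BC BC_self BC_cs PR PR_cs CcF N2 N2_nonneg pr_cc dB dB_cc cu cu_cc EC_nonneg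
  poinc EC_vert Cc u_cc pd_cc JC_PR QC_approx EC_lc lc lc_eq lc_test PR_lc PR_comm tr tr_tr tr_cont
  tr_supp QC_tr QC_decay PR_tr tr_eq)
open Pool.Agent.N986.SL (OSForm)

noncomputable section

variable {n D : ℕ}

lemma QC_neg_rfF (i : Fin D) (f : SrcM D) : QC (-rfF i f.1) = QC f.1 := by
  have h1 : QC (-rfF i f.1) = ‖sol (-(rfS i f))‖ ^ 2 := QC_sol (-(rfS i f))
  have h2 : sol (-(rfS i f)) = -(Th i (sol f)) := by
    rw [← sol_rfS]
    exact map_neg (solL D) _
  have h4 : ‖Th i (sol f)‖ ^ 2 = ‖sol f‖ ^ 2 := by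
    rw [← real_inner_self_eq_norm_sq, Th_inner, real_inner_self_eq_norm_sq]
  rw [h1, h2, norm_neg, h4, QC_sol]

lemma exp_sub_le {x y : ℝ} (hx : 0 ≤ x) (hy : 0 ≤ y) :
    |Real.exp (-x / 2) - Real.exp (-y / 2)| ≤ |x - y| := by
  have key : ∀ {x y : ℝ}, 0 ≤ x → x ≤ y → |Real.exp (-x / 2) - Real.exp (-y / 2)| ≤ |x - y| := by
    intro x y hx hxy
    have h1 : Real.exp (-y / 2) ≤ Real.exp (-x / 2) := Real.exp_le_exp.2 (by linarith)
    rw [abs_of_nonneg (by linarith), abs_of_nonpos (by linarith)]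
    have h2 : Real.exp (-y / 2) = Real.exp (-x / 2) * Real.exp ((x - y) / 2) := by
      rw [← Real.exp_add]
      congr 1
      ring
    have h3 : (x - y) / 2 + 1 ≤ Real.exp ((x - y) / 2) := Real.add_one_le_exp _
    have h4 : Real.exp (-x / 2) ≤ 1 := Real.exp_le_one_iff.2 (by linarith)
    have h5 := Real.exp_pos (-x / 2)
    have h6 : Real.exp ((x - y) / 2) ≤ 1 := Real.exp_le_one_iff.2 (by linarith)
    rw [h2]
    nlinarith
  rcases le_total x y with h | h
  · exact key hx h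
  · rw [abs_sub_comm, abs_sub_comm x y]
    exact key hy h

lemma norm_single (i : Fin D) {u : ℝ} (hu : 0 ≤ u) : ‖(Pi.single i u : Fin D → ℝ)‖ = u := by
  rw [Pi.norm_single, Real.norm_of_nonneg hu]

/-- **Clustering of the kernel.** -/
theorem Gk_decay {i : Fin D} (a b : HT n i) {m : ℝ} (hm : m < Real.pi / 2) :
    ∃ C : ℝ, 0 ≤ C ∧ ∀ (u : ℝ) (hu : 0 ≤ u),
      |Gk a (sh u hu b) - dk a * dk b| ≤ C * Real.exp (-(m * u)) := by
  have h1 : ∀ j : Fin n, ∃ C : ℝ, ∀ v : Fin D → ℝ,
      |QC (fun p => (-rfF i (a.1 j)) p + b.1 j (p.1 - v, p.2)) - QC (-rfF i (a.1 j)) - QC (b.1 j)| ≤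
        C * Real.exp (-(m * ‖v‖)) := by
    intro j
    have hs := (-(rfS i (sr a j))).2
    exact QC_decay hs.1 hs.2 (b.2.cont j) (b.2.supp j) hm
  choose C hC using h1
  refine ⟨∑ j, |C j|, Finset.sum_nonneg fun j _ => abs_nonneg _, fun u hu => ?_⟩
  have e1 : dk a * dk b = Real.exp (-(Vr a.1 + Vr b.1) / 2) := by
    unfold dk
    rw [← Real.exp_add]
    congr 1
    ring
  have ha : 0 ≤ Vr a.1 := Vr_nonneg fun j => (sr a j).2
  have hb : 0 ≤ Vr b.1 := Vr_nonneg fun j => (sr b j).2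
  have e2 : Vr ((sh u hu b).1 - refl i a.1) - (Vr a.1 + Vr b.1) =
      ∑ j, (QC (fun p => (-rfF i (a.1 j)) p + b.1 j (p.1 - Pi.single i u, p.2)) -
        QC (-rfF i (a.1 j)) - QC (b.1 j)) := by
    unfold Vr
    rw [← Finset.sum_add_distrib, ← Finset.sum_sub_distrib]
    refine Finset.sum_congr rfl fun j _ => ?_
    have e3 : ((sh u hu b).1 - refl i a.1) j =
        fun p => (-rfF i (a.1 j)) p + b.1 j (p.1 - Pi.single i u, p.2) := by
      funext p
      show b.1 j (p.1 - Pi.single i u, p.2) - rfF i (a.1 j) p = _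
      rw [Pi.neg_apply]
      abel
    have e4 : QC (-rfF i (a.1 j)) = QC (a.1 j) := QC_neg_rfF i (sr a j)
    rw [e3, e4]
    ring
  have h2 := exp_sub_le (Vr_nonneg (sub_refl_cc a (sh u hu b))) (add_nonneg ha hb)
  rw [e1]
  unfold Gk
  refine h2.trans ?_
  rw [e2]
  refine (Finset.abs_sum_le_sum_abs _ _).trans ?_
  rw [Finset.sum_mul]
  refine Finset.sum_le_sum fun j _ => ?_
  have h3 := hC j (Pi.single i u)
  rw [norm_single i hu] at h3
  exact h3.trans (mul_le_mul_of_nonneg_right (le_abs_self _) (Real.exp_pos _).le)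

lemma sum_mapDomain {i : Fin D} {u : ℝ} (hu : 0 ≤ u) (F F' : AA n i) :
    Bk F (ta u hu F') = F.sum fun a x => F'.sum fun b y => conj x * y * (Gk a (sh u hu b) : ℂ) := by
  unfold Bk ta
  rw [Finsupp.lmapDomain_apply]
  refine Finsupp.sum_congr fun a _ => ?_
  rw [Finsupp.sum_mapDomain_index (by simp) (fun b y y' => by ring)]

lemma norm_sq_one {i : Fin D} (F : AA n i) : ((‖Bk (one0 n i) F‖ ^ 2 : ℝ) : ℂ) =
    F.sum fun a x => F.sum fun b y => conj x * y * ((dk a * dk b : ℝ) : ℂ) := by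
  rw [← Complex.normSq_eq_norm_sq, ← Complex.mul_conj, mul_comm, Bk_one, map_finsuppSum,
    Finsupp.sum_mul]
  refine Finsupp.sum_congr fun a _ => ?_
  rw [Finsupp.mul_sum]
  refine Finsupp.sum_congr fun b _ => ?_
  rw [map_mul, Complex.conj_ofReal]
  push_cast
  ring

/-- **Clustering.** -/
theorem Bk_decay {i : Fin D} (F : AA n i) {m : ℝ} (hm : m < Real.pi / 2) :
    ∃ C : ℝ, ∀ (u : ℝ) (hu : 0 ≤ u),
      ‖Bk F (ta u hu F) - (‖Bk (one0 n i) F‖ ^ 2 : ℝ)‖ ≤ C * Real.exp (-(m * u)) := by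
  choose C hC0 hC using fun a b : HT n i => Gk_decay a b hm
  refine ⟨∑ a ∈ F.support, ∑ b ∈ F.support, ‖F a‖ * ‖F b‖ * C a b, fun u hu => ?_⟩
  rw [sum_mapDomain, norm_sq_one]
  unfold Finsupp.sum
  rw [← Finset.sum_sub_distrib]
  refine (norm_sum_le _ _).trans ?_
  rw [Finset.sum_mul]
  refine Finset.sum_le_sum fun a _ => ?_
  rw [← Finset.sum_sub_distrib]
  refine (norm_sum_le _ _).trans ?_
  rw [Finset.sum_mul]
  refine Finset.sum_le_sum fun b _ => ?_
  rw [← mul_sub, norm_mul, norm_mul, RCLike.norm_conj, ← Complex.ofReal_sub, Complex.norm_real,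
    Real.norm_eq_abs, mul_assoc (‖F a‖ * ‖F b‖)]
  exact mul_le_mul_of_nonneg_left (hC a b u hu) (by positivity)

/-! ### continuity -/

/-- the translated source -/
def trS (i : Fin D) (u : ℝ) (f : SrcM D) : SrcM D :=
  ⟨tr (Pi.single i u) f.1, tr_cont f.2.1, tr_supp f.2.2⟩

lemma PR_tr_cont (i : Fin D) (f g : SrcM D) :
    Continuous fun u : ℝ => PR (tr (Pi.single i u) f.1) g.1 := by
  have hs : IsCompact (Slb D ∩ tsupport g.1) := by
    refine IsCompact.inter_left g.2.2 ?_
    exact (isClosed_le continuous_const continuous_snd).inter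
      (isClosed_le continuous_snd continuous_const)
  have hm : MeasurableSet (Slb D) :=
    ((isClosed_le continuous_const continuous_snd).inter
      (isClosed_le continuous_snd continuous_const)).measurableSet
  have e : (fun u : ℝ => PR (tr (Pi.single i u) f.1) g.1) =
      fun u : ℝ => ∫ p in Slb D ∩ tsupport g.1, ∑ k, tr (Pi.single i u) f.1 p k * g.1 p k := by
    funext u
    unfold PR
    refine (setIntegral_eq_of_subset_of_forall_sdiff_eq_zero
      (f := fun p : Pt D => ∑ k, tr (Pi.single i u) f.1 p k * g.1 p k) (μ := volume)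
      hm inter_subset_left ?_)
    intro p hp
    have : g.1 p = 0 := by
      by_contra h
      exact hp.2 ⟨hp.1, subset_tsupport _ (Function.mem_support.2 h)⟩
    refine Finset.sum_eq_zero fun k _ => ?_
    rw [this]
    simp
  rw [e]
  refine continuous_parametric_integral_of_continuous
    (f := fun (u : ℝ) (p : Pt D) => ∑ k, tr (Pi.single i u) f.1 p k * g.1 p k) ?_ hs
  have hf := f.2.1
  have hg := g.2.1
  have h1 : Continuous fun x : ℝ × Pt D => (x.2.1 - (Pi.single i x.1 : Fin D → ℝ), x.2.2) := by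
    refine Continuous.prodMk ?_ (continuous_snd.comp continuous_snd)
    refine (continuous_fst.comp continuous_snd).sub ?_
    exact (continuous_single i).comp continuous_fst
  refine continuous_finsetSum _ fun k _ => ?_
  refine Continuous.mul ?_ ?_
  · exact (continuous_apply k).comp (hf.comp h1)
  · exact (continuous_apply k).comp (hg.comp continuous_snd)

lemma N2_sub (f g : SrcM D) : N2 (f - g).1 = N2 f.1 - 2 * PR f.1 g.1 + N2 g.1 := by
  have e : (f - g).1 = f.1 + (-1 : ℝ) • g.1 := by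
    show f.1 - g.1 = f.1 + (-1 : ℝ) • g.1
    rw [neg_one_smul, sub_eq_add_neg]
  have hf := src_cc f
  have hg := src_cc g
  have hg' : CcF ((-1 : ℝ) • g.1) := src_cc ((-1 : ℝ) • g)
  have hfg : CcF (f.1 + (-1 : ℝ) • g.1) := src_cc (f + (-1 : ℝ) • g)
  unfold N2
  rw [e, PR_add_left hf hg' hfg, PR_add_right hf hf hg', PR_add_right hg' hf hg', PR_smul_right,
    PR_smul_left, PR_smul_left, PR_smul_right, PR_comm g.1 f.1]
  ring

lemma sol_tr_cont (i : Fin D) (f : SrcM D) : Continuous fun u : ℝ => sol (trS i u f) := by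
  rw [continuous_iff_continuousAt]
  intro u₀
  unfold ContinuousAt
  rw [tendsto_iff_norm_sub_tendsto_zero]
  have h1 : ∀ u, ‖sol (trS i u f) - sol (trS i u₀ f)‖ ≤
      Real.sqrt (2 * N2 f.1 - 2 * PR (tr (Pi.single i u) f.1) (trS i u₀ f).1) := by
    intro u
    have e : sol (trS i u f) - sol (trS i u₀ f) = sol (trS i u f - trS i u₀ f) :=
      (map_sub (solL D) _ _).symm
    rw [e]
    refine (sol_norm_le _).trans (le_of_eq ?_)
    congr 1
    rw [N2_sub]
    have e1 : N2 (trS i u f).1 = N2 f.1 := PR_tr _ _ _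
    have e2 : N2 (trS i u₀ f).1 = N2 f.1 := PR_tr _ _ _
    rw [e1, e2]
    show N2 f.1 - 2 * PR (tr (Pi.single i u) f.1) (trS i u₀ f).1 + N2 f.1 = _
    ring
  have h2 : Tendsto (fun u : ℝ =>
      Real.sqrt (2 * N2 f.1 - 2 * PR (tr (Pi.single i u) f.1) (trS i u₀ f).1)) (𝓝 u₀) (𝓝 0) := by
    have hc : Continuous fun u : ℝ =>
        Real.sqrt (2 * N2 f.1 - 2 * PR (tr (Pi.single i u) f.1) (trS i u₀ f).1) :=
      Real.continuous_sqrt.comp (continuous_const.sub (continuous_const.mul (PR_tr_cont i f _)))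
    have h3 := hc.tendsto u₀
    have e3 : PR (tr (Pi.single i u₀) f.1) (trS i u₀ f).1 = N2 f.1 := PR_tr _ _ _
    rw [e3, sub_self, Real.sqrt_zero] at h3
    exact h3
  exact squeeze_zero (fun u => norm_nonneg _) h1 h2

/-- the kernel as a function of the time -/
lemma Gk_cont {i : Fin D} (a b : HT n i) :
    Continuous fun u : ℝ => Real.exp (-Vr (shift i u b.1 - refl i a.1) / 2) := by
  refine Real.continuous_exp.comp (Continuous.div_const (Continuous.neg ?_) _)
  unfold Vr
  refine continuous_finsetSum _ fun j _ => ?_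
  have e : (fun u : ℝ => QC ((shift i u b.1 - refl i a.1) j)) =
      fun u : ℝ => ‖sol (trS i u (sr b j)) - Th i (sol (sr a j))‖ ^ 2 := by
    funext u
    have h1 : QC ((shift i u b.1 - refl i a.1) j) = ‖sol (trS i u (sr b j) - rfS i (sr a j))‖ ^ 2 :=
      QC_sol (trS i u (sr b j) - rfS i (sr a j))
    rw [h1, ← sol_rfS]
    congr 2
    exact map_sub (solL D) _ _
  rw [e]
  exact (((sol_tr_cont i _).sub continuous_const).norm).pow 2

end

end Pool.Agent.N990.OS
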