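import Pool.Agent.N990.C.Def

/-!
# Osterwalder–Schrader reconstruction: definitions
-/

set_option autoImplicit false
set_option linter.unusedSectionVars false

open MeasureTheory Set Filter Topology
open scoped Classical InnerProductSpace

namespace Pool.Agent.N990.OS

open Pool.Agent.N990 Pool.Agent.N990.C

noncomputable section

/-- `n` test functions -/
abbrev TD (n D : ℕ) : Type := Fin n → Pt D → Fin D → ℝ

variable {n D : ℕ}

/-- The test functions are continuous with compact support, and vanish for `y i < 0`. -/
structure Half (i : Fin D) (f : TD n D) : Prop where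
  cont : ∀ j, Continuous (f j)
  supp : ∀ j, HasCompactSupport (f j)
  half : ∀ j p, p.1 i < 0 → f j p = 0

/-- The reflection of the test functions (which are one-forms) in the direction `i`. -/
def refl (i : Fin D) (f : TD n D) : TD n D := fun j p k =>
  (if k = i then -1 else 1) * f j (Function.update p.1 i (-p.1 i), p.2) k

/-- The translation of the test functions by `t` in the direction `i`. -/
def shift (i : Fin D) (t : ℝ) (f : TD n D) : TD n D := fun j p => f j (p.1 - Pi.single i t, p.2)

variable {H : Type} [NormedAddCommGroup H] [InnerProductSpace ℂ H]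

/-- The Osterwalder–Schrader reconstruction of the theory with the characteristic functional `S`,
with the Euclidean time in the direction `i`: the Hilbert space `H` is spanned by the vectors `J f`
of the test functions `f` in the half space, their inner products are given by `S` and the
reflection, and `T t` is the transfer operator. -/
structure IsOS (i : Fin D) (S : TD n D → ℂ) (T : ℝ → H →L[ℂ] H) (J : TD n D → H) : Prop where
  inner_eq : ∀ f g, Half i f → Half i g → inner ℂ (J f) (J g) = S (g - refl i f)
  dense : Dense (Submodule.span ℂ (J '' {f | Half i f}) : Set H)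
  transfer : ∀ t, 0 ≤ t → ∀ f, Half i f → T t (J f) = J (shift i t f)

/-- `T t = exp (-t H)` for a Hamiltonian `H ≥ 0` with the vacuum `v`. -/
structure IsSemi (T : ℝ → H →L[ℂ] H) (v : H) : Prop where
  zero : T 0 = 1
  add : ∀ s t, 0 ≤ s → 0 ≤ t → T (s + t) = T s * T t
  cont : ∀ x, ContinuousOn (fun t => T t x) (Ici 0)
  pos : ∀ t, 0 ≤ t → (T t).IsPositive
  norm : ∀ t, 0 ≤ t → ‖T t‖ ≤ 1
  vac : ∀ t, 0 ≤ t → T t v = v
  one : ‖v‖ = 1

/-- The mass gap of `T` over the vacuum `v` is `m`: the norm of `T t` on the orthogonal complement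
of `v` is `exp (-m t)`. -/
def MassGap (T : ℝ → H →L[ℂ] H) (v : H) (m : ℝ) : Prop :=
  ∀ t, 0 ≤ t → IsLeast {c : ℝ | 0 ≤ c ∧ ∀ x, inner ℂ v x = 0 → ‖T t x‖ ≤ c * ‖x‖}
    (Real.exp (-(m * t)))

/-- the characteristic functional of the limit -/
def Sc (f : TD n D) : ℂ := (Real.exp (-(∑ j, QC (f j)) / 2) : ℝ)

end

end Pool.Agent.N990.OS
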