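import Pool.Agent.N839.C.Bil
import Pool.Agent.N990.C.Low2

/-!
# The energy space, and the quadratic form of the limit field
-/

set_option autoImplicit false
set_option linter.unusedSectionVars false
set_option linter.unusedVariables false

open MeasureTheory Set Filter Topology
open scoped Classical InnerProductSpace

namespace Pool.Agent.N990.OS

open Pool.Agent.N990 Pool.Agent.N990.C
open Pool.Agent.N839.C (BC BC_self BC_cs PR PR_cs CcF N2 N2_nonneg pr_cc dB dB_cc cu cu_cc EC_nonneg
  poinc EC_vert Cc u_cc pd_cc JC_PR QC_approx EC_lc lc lc_eq lc_test PR_lc PR_comm)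

noncomputable section

variable {D : ℕ}

/-! ### bilinearity -/

lemma isTest_add {u w : Pt D → Fin D → ℝ} (hu : IsTest u) (hw : IsTest w) : IsTest (u + w) := by
  have := lc_test hu hw 1
  rwa [lc_eq, one_smul] at this

lemma pd_add {u w : Pt D → Fin D → ℝ} (hu : IsTest u) (hw : IsTest w) (e : Pt D) (i : Fin D)
    (p : Pt D) : pd (u + w) e i p = pd u e i p + pd w e i p := by
  unfold pd
  rw [fderiv_add (hu.smooth.differentiable one_ne_zero p)
    (hw.smooth.differentiable one_ne_zero p)]
  rfl

lemma pd_smul {u : Pt D → Fin D → ℝ} (hu : IsTest u) (c : ℝ) (e : Pt D) (i : Fin D)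
    (p : Pt D) : pd (c • u) e i p = c * pd u e i p := by
  unfold pd
  rw [fderiv_const_smul (hu.smooth.differentiable one_ne_zero p)]
  rfl

lemma BC_comm (u w : Pt D → Fin D → ℝ) : BC u w = BC w u := by
  unfold BC dB
  simp only [mul_comm]

lemma BC_add_left {u w v : Pt D → Fin D → ℝ} (hu : IsTest u) (hw : IsTest w) (hv : IsTest v) :
    BC (u + w) v = BC u v + BC w v := by
  unfold BC
  rw [← integral_add (dB_cc hu hv).int.integrableOn (dB_cc hw hv).int.integrableOn]
  congr 1
  funext p
  unfold dB cu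
  simp only [pd_add hu hw]
  have a1 : ∑ i, (pd u (ez D) i p + pd w (ez D) i p) * pd v (ez D) i p =
      ∑ i, pd u (ez D) i p * pd v (ez D) i p + ∑ i, pd w (ez D) i p * pd v (ez D) i p := by
    rw [← Finset.sum_add_distrib]
    exact Finset.sum_congr rfl fun i _ => add_mul _ _ _
  have a2 : ∑ i, ∑ j, (if i < j then (pd u (eh i) j p + pd w (eh i) j p -
      (pd u (eh j) i p + pd w (eh j) i p)) * (pd v (eh i) j p - pd v (eh j) i p) else 0) =
      ∑ i, ∑ j, (if i < j then (pd u (eh i) j p - pd u (eh j) i p) *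
        (pd v (eh i) j p - pd v (eh j) i p) else 0) +
      ∑ i, ∑ j, (if i < j then (pd w (eh i) j p - pd w (eh j) i p) *
        (pd v (eh i) j p - pd v (eh j) i p) else 0) := by
    simp only [← Finset.sum_add_distrib]
    refine Finset.sum_congr rfl fun i _ => Finset.sum_congr rfl fun j _ => ?_
    split_ifs
    · ring
    · ring
  rw [a1, a2]
  ring

lemma BC_smul_left {u v : Pt D → Fin D → ℝ} (hu : IsTest u) (c : ℝ) :
    BC (c • u) v = c * BC u v := by
  unfold BC
  rw [← integral_const_mul]
  congr 1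
  funext p
  unfold dB cu
  simp only [pd_smul hu]
  rw [mul_add, Finset.mul_sum, Finset.mul_sum]
  congr 1
  · exact Finset.sum_congr rfl fun i _ => by ring
  · refine Finset.sum_congr rfl fun i _ => ?_
    rw [Finset.mul_sum]
    refine Finset.sum_congr rfl fun j _ => ?_
    split_ifs
    · ring
    · ring

lemma PR_add_right {f u w : Pt D → Fin D → ℝ} (hf : CcF f) (hu : CcF u) (hw : CcF w) :
    PR f (u + w) = PR f u + PR f w := by
  have := PR_lc hf hu hw 1
  rwa [lc_eq, one_smul, one_mul] at this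

lemma PR_smul_right {f u : Pt D → Fin D → ℝ} (c : ℝ) : PR f (c • u) = c * PR f u := by
  unfold PR
  rw [← integral_const_mul]
  congr 1
  funext p
  rw [Finset.mul_sum]
  refine Finset.sum_congr rfl fun i _ => ?_
  rw [Pi.smul_apply, Pi.smul_apply, smul_eq_mul]
  ring

lemma PR_add_left {f g u : Pt D → Fin D → ℝ} (hf : CcF f) (hg : CcF g) (hu : CcF u) :
    PR (f + g) u = PR f u + PR g u := by
  rw [PR_comm, PR_add_right hu hf hg, PR_comm u f, PR_comm u g]

lemma PR_smul_left {f u : Pt D → Fin D → ℝ} (c : ℝ) : PR (c • f) u = c * PR f u := by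
  rw [PR_comm, PR_smul_right, PR_comm]

/-! ### the space -/

/-- the test fields -/
def TF (D : ℕ) : Submodule ℝ (Pt D → Fin D → ℝ) where
  carrier := {u | IsTest u}
  zero_mem' := IsTest.zero
  add_mem' := fun h h' => isTest_add h h'
  smul_mem' := fun c _ h => h.smul c

/-- the test fields, with the energy norm -/
def PE (D : ℕ) : Type := TF D

instance : AddCommGroup (PE D) := inferInstanceAs (AddCommGroup (TF D))

instance : Module ℝ (PE D) := inferInstanceAs (Module ℝ (TF D))

/-- the field -/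
def fld (u : PE D) : Pt D → Fin D → ℝ := Subtype.val (p := fun u => u ∈ TF D) u

lemma fld_test (u : PE D) : IsTest (fld u) := Subtype.property (p := fun u => u ∈ TF D) u

/-- a test field as a vector -/
def mkE {u : Pt D → Fin D → ℝ} (hu : IsTest u) : PE D := (⟨u, hu⟩ : TF D)

lemma fld_mk {u : Pt D → Fin D → ℝ} (hu : IsTest u) : fld (mkE hu) = u := rfl

lemma fld_add (u w : PE D) : fld (u + w) = fld u + fld w := rfl

lemma fld_smul (c : ℝ) (u : PE D) : fld (c • u) = c • fld u := rfl

/-- the inner product -/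
abbrev coreE (D : ℕ) : PreInnerProductSpace.Core ℝ (PE D) where
  inner u w := BC (fld u) (fld w)
  conj_inner_symm u w := BC_comm _ _
  re_inner_nonneg u := by
    show 0 ≤ BC (fld u) (fld u)
    rw [BC_self]
    exact EC_nonneg _
  add_left u w v := BC_add_left (fld_test u) (fld_test w) (fld_test v)
  smul_left u w c := BC_smul_left (fld_test u) c

instance : SeminormedAddCommGroup (PE D) :=
  InnerProductSpace.Core.toSeminormedAddCommGroup (c := coreE D)

instance : InnerProductSpace ℝ (PE D) := InnerProductSpace.ofCore (coreE D)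

/-- the energy space -/
abbrev HE (D : ℕ) : Type := UniformSpace.Completion (PE D)

/-- the inclusion of the test fields -/
def JE (D : ℕ) : PE D →ₗ[ℝ] HE D := (UniformSpace.Completion.toComplL : PE D →L[ℝ] HE D).toLinearMap

lemma JE_apply (u : PE D) : JE D u = (u : HE D) := rfl

lemma JE_dense : DenseRange (JE D) :=
  (UniformSpace.Completion.denseRange_coe : DenseRange ((↑) : PE D → HE D))

lemma JE_inner (u w : PE D) : inner ℝ (JE D u) (JE D w) = BC (fld u) (fld w) := by
  rw [JE_apply, JE_apply, UniformSpace.Completion.inner_coe]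
  rfl

lemma JE_norm_sq (u : PE D) : ‖JE D u‖ ^ 2 = EC (fld u) := by
  rw [← real_inner_self_eq_norm_sq, JE_inner, BC_self]

lemma JE_norm (u : PE D) : ‖JE D u‖ = Real.sqrt (EC (fld u)) := by
  rw [← JE_norm_sq, Real.sqrt_sq (norm_nonneg _)]

/-! ### the sources -/

/-- the sources -/
def SrcM (D : ℕ) : Submodule ℝ (Pt D → Fin D → ℝ) where
  carrier := {f | Continuous f ∧ HasCompactSupport f}
  zero_mem' := ⟨continuous_const, HasCompactSupport.zero⟩
  add_mem' := fun h h' => ⟨h.1.add h'.1, h.2.add h'.2⟩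
  smul_mem' := fun c f h => ⟨h.1.const_smul c, h.2.smul_left (f := fun _ => c)⟩

lemma src_cc (f : SrcM D) : CcF f.1 := CcF.of f.2.1 f.2.2

lemma N2_le_EC {u : Pt D → Fin D → ℝ} (hu : IsTest u) : N2 u ≤ EC u := by
  refine le_trans ?_ (EC_vert hu)
  have : N2 u = ∑ i, ∫ p in Slb D, u p i ^ 2 := by
    unfold N2 PR
    rw [integral_finsetSum _ fun i _ => ((u_cc hu i).mul (u_cc hu i).1).int.integrableOn]
    simp only [pow_two]
  rw [this]
  exact Finset.sum_le_sum fun i _ => poinc hu i

/-- the pairing with a source, as a functional -/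
def pair (f : SrcM D) : PE D →ₗ[ℝ] ℝ where
  toFun := fun u => PR f.1 (fld u)
  map_add' := fun u w => by
    rw [fld_add]
    exact PR_add_right (src_cc f) (CcF.test (fld_test u)) (CcF.test (fld_test w))
  map_smul' := fun c u => by
    rw [fld_smul, PR_smul_right]
    rfl

lemma pair_le (f : SrcM D) (u : PE D) : ‖pair f u‖ ≤ Real.sqrt (N2 f.1) * ‖JE D u‖ := by
  rw [JE_norm]
  refine (PR_cs (src_cc f) (CcF.test (fld_test u))).trans ?_
  exact mul_le_mul_of_nonneg_left (Real.sqrt_le_sqrt (N2_le_EC (fld_test u))) (Real.sqrt_nonneg _)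

/-- the minimizer -/
def sol (f : SrcM D) : HE D :=
  (InnerProductSpace.toDual ℝ (HE D)).symm ((pair f).extendOfNorm (JE D))

lemma sol_inner (f : SrcM D) (u : PE D) : inner ℝ (sol f) (JE D u) = PR f.1 (fld u) := by
  unfold sol
  rw [InnerProductSpace.toDual_symm_apply,
    LinearMap.extendOfNorm_eq JE_dense ⟨Real.sqrt (N2 f.1), pair_le f⟩]
  rfl

lemma ext_inner {x y : HE D} (h : ∀ u : PE D, inner ℝ x (JE D u) = inner ℝ y (JE D u)) : x = y := by
  have h1 : ∀ z : HE D, inner ℝ x z = inner ℝ y z := by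
    intro z
    refine DenseRange.induction_on JE_dense z (isClosed_eq (by fun_prop) (by fun_prop)) h
  exact ext_inner_right ℝ h1

/-- the minimizer as a linear map -/
def solL (D : ℕ) : SrcM D →ₗ[ℝ] HE D where
  toFun := sol
  map_add' := fun f g => ext_inner fun u => by
    rw [inner_add_left, sol_inner, sol_inner, sol_inner]
    exact PR_add_left (src_cc f) (src_cc g) (CcF.test (fld_test u))
  map_smul' := fun c f => ext_inner fun u => by
    rw [RingHom.id_apply, real_inner_smul_left, sol_inner, sol_inner]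
    exact PR_smul_left c

/-- **The variance is the squared norm of the minimizer.** -/
theorem QC_sol (f : SrcM D) : QC f.1 = ‖sol f‖ ^ 2 := by
  have h1 : ∀ u : PE D, JC f.1 (fld u) - EC (fld u) = ‖sol f‖ ^ 2 - ‖sol f - JE D u‖ ^ 2 := by
    intro u
    rw [norm_sub_sq_real, sol_inner, JE_norm_sq, JC_PR]
    ring
  have hb := QC_bdd f.2.1 f.2.2
  refine le_antisymm ?_ ?_
  · refine csSup_le ⟨_, 0, IsTest.zero, rfl⟩ ?_
    rintro t ⟨u, hu, rfl⟩
    have := h1 (mkE hu)
    rw [fld_mk] at this
    rw [this]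
    have := sq_nonneg ‖sol f - JE D (mkE hu)‖
    linarith
  · refine le_of_forall_pos_le_add fun ε hε => ?_
    obtain ⟨u, hu⟩ := Metric.denseRange_iff.1 JE_dense (sol f) (Real.sqrt ε) (by positivity)
    rw [dist_eq_norm] at hu
    have h2 : ‖sol f - JE D u‖ ^ 2 < ε := by
      have := pow_lt_pow_left₀ hu (norm_nonneg _) two_ne_zero
      rwa [Real.sq_sqrt hε.le] at this
    have h3 : JC f.1 (fld u) - EC (fld u) ≤ QC f.1 := le_csSup hb ⟨fld u, fld_test u, rfl⟩
    rw [h1] at h3
    linarith

lemma sol_norm_le (f : SrcM D) : ‖sol f‖ ≤ Real.sqrt (N2 f.1) := by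
  have h1 : ∀ z : HE D, inner ℝ (sol f) z ≤ Real.sqrt (N2 f.1) * ‖z‖ := by
    intro z
    refine DenseRange.induction_on JE_dense z (isClosed_le (by fun_prop) (by fun_prop)) fun u => ?_
    rw [sol_inner]
    exact (le_abs_self _).trans (pair_le f u)
  have h2 := h1 (sol f)
  rw [real_inner_self_eq_norm_sq, pow_two] at h2
  rcases (norm_nonneg (sol f)).eq_or_lt with h | h
  · rw [← h]; exact Real.sqrt_nonneg _
  · exact le_of_mul_le_mul_right h2 h

end

end Pool.Agent.N990.OS
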