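import Pool.Agent.N990.OS.Refl
import Pool.Agent.N839.C.Odd

/-!
# The Markov property, and reflection positivity
-/

set_option autoImplicit false
set_option linter.unusedSectionVars false
set_option linter.unusedVariables false

open MeasureTheory Set Filter Topology
open scoped Classical InnerProductSpace

namespace Pool.Agent.N990.OS

open Pool.Agent.N990 Pool.Agent.N990.C
open Pool.Agent.N839.C (BC BC_self BC_cs PR PR_cs CcF N2 N2_nonneg pr_cc dB dB_cc cu cu_cc EC_nonneg
  poinc EC_vert Cc u_cc pd_cc JC_PR QC_approx EC_lc lc lc_eq lc_test PR_lc PR_comm)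

noncomputable section

variable {D : ℕ}

/-- odd fields can be cut at the plane of reflection -/
def OddCut (i : Fin D) : Prop := ∀ u : Pt D → Fin D → ℝ, IsTest u → rfF i u = -u → ∀ ε : ℝ, 0 < ε →
  ∃ u', IsTest u' ∧ (∃ δ : ℝ, 0 < δ ∧ ∀ p : Pt D, |p.1 i| < δ → u' p = 0) ∧ EC (u - u') < ε

theorem oddCut (i : Fin D) : OddCut i := by
  intro u hu ho ε hε
  refine Pool.Agent.N839.C.odd_cut i hu (fun p => ?_) hε
  have h1 : ∀ k, sg i k * u (rfp i p) k = -u p k := fun k => by
    have := congrFun (congrFun ho p) k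
    exact this
  refine ⟨fun k hk => ?_, ?_⟩
  · have := h1 k
    unfold sg at this
    rw [if_neg hk, one_mul] at this
    exact this
  · have := h1 i
    unfold sg at this
    rw [if_pos rfl, neg_one_mul, neg_inj] at this
    exact this

/-- the test fields in the upper half space -/
def Up (i : Fin D) : Submodule ℝ (PE D) where
  carrier := {u | ∀ p : Pt D, p.1 i ≤ 0 → fld u p = 0}
  zero_mem' := fun p _ => rfl
  add_mem' := fun {u w} hu hw p hp => by
    rw [fld_add, Pi.add_apply, hu p hp, hw p hp, add_zero]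
  smul_mem' := fun c u hu p hp => by
    rw [fld_smul, Pi.smul_apply, hu p hp, smul_zero]

/-- the test fields in the lower half space -/
def Um (i : Fin D) : Submodule ℝ (PE D) where
  carrier := {u | ∀ p : Pt D, 0 ≤ p.1 i → fld u p = 0}
  zero_mem' := fun p _ => rfl
  add_mem' := fun {u w} hu hw p hp => by
    rw [fld_add, Pi.add_apply, hu p hp, hw p hp, add_zero]
  smul_mem' := fun c u hu p hp => by
    rw [fld_smul, Pi.smul_apply, hu p hp, smul_zero]

lemma rfp_i (i : Fin D) (p : Pt D) : (rfp i p).1 i = -p.1 i := by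
  unfold rfp
  simp

lemma rfT_Up {i : Fin D} {u : PE D} (hu : u ∈ Up i) : rfT i u ∈ Um i := by
  intro p hp
  rw [fld_rfT]
  funext k
  unfold rfF
  rw [hu (rfp i p) (by rw [rfp_i]; linarith)]
  simp

lemma shift_tendsto (p e : Pt D) :
    Tendsto (fun n : ℕ => p + (1 / ((n : ℝ) + 1)) • e) atTop (𝓝 p) := by
  have h1 : Tendsto (fun n : ℕ => (1 / ((n : ℝ) + 1)) • e) atTop (𝓝 ((0 : ℝ) • e)) :=
    tendsto_one_div_add_atTop_nhds_zero_nat.smul_const e
  have h2 := h1.const_add p
  rwa [zero_smul, add_zero] at h2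

lemma fderiv_zero_Up {i : Fin D} {u : Pt D → Fin D → ℝ} (hu : ContDiff ℝ 1 u) {s : ℝ} (hs : s ≠ 0)
    (h : ∀ p : Pt D, 0 ≤ s * p.1 i → u p = 0) {p : Pt D} (hp : 0 ≤ s * p.1 i) : fderiv ℝ u p = 0 := by
  have hc : Continuous (fderiv ℝ u) := hu.continuous_fderiv one_ne_zero
  have h1 := (hc.tendsto p).comp (shift_tendsto p (s • eh i))
  refine tendsto_nhds_unique h1 (tendsto_const_nhds.congr fun n => ?_)
  rw [Function.comp_apply]
  set q : Pt D := p + (1 / ((n : ℝ) + 1)) • (s • eh i) with hq
  have hqi : 0 < s * q.1 i := by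
    have e : q.1 i = p.1 i + 1 / ((n : ℝ) + 1) * s := by
      rw [hq]
      unfold eh
      simp
    rw [e, mul_add]
    have : 0 < s * (1 / ((n : ℝ) + 1) * s) := by
      have : s * (1 / ((n : ℝ) + 1) * s) = 1 / ((n : ℝ) + 1) * (s * s) := by ring
      rw [this]
      have := mul_self_pos.2 hs
      positivity
    linarith
  have ho : {x : Pt D | 0 < s * x.1 i} ∈ 𝓝 q := by
    refine IsOpen.mem_nhds ?_ hqi
    exact isOpen_lt continuous_const (continuous_const.mul ((continuous_apply i).comp continuous_fst))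
  have he : u =ᶠ[𝓝 q] fun _ => 0 := by
    filter_upwards [ho] with x hx
    exact h x hx.le
  rw [he.fderiv_eq]
  simp

lemma BC_disj {i : Fin D} {u w : PE D} (hu : u ∈ Up i) (hw : w ∈ Um i) : BC (fld u) (fld w) = 0 := by
  unfold BC
  have h0 : ∀ p, dB (fld u) (fld w) p = 0 := by
    intro p
    have hz : (∀ e k, pd (fld u) e k p = 0) ∨ (∀ e k, pd (fld w) e k p = 0) := by
      rcases le_total (p.1 i) 0 with h | h
      · left
        intro e k
        unfold pd
        rw [fderiv_zero_Up (s := -1) (fld_test u).smooth (by norm_num)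
          (fun q hq => hu q (by linarith)) (by linarith)]
        rfl
      · right
        intro e k
        unfold pd
        rw [fderiv_zero_Up (s := 1) (fld_test w).smooth (by norm_num)
          (fun q hq => hw q (by linarith)) (by linarith)]
        rfl
    unfold dB cu
    rcases hz with h | h
    · simp only [h]; simp
    · simp only [h]; simp
  simp only [h0]
  simp

/-- the closure of the fields in the upper half space -/
def Ap (i : Fin D) : Submodule ℝ (HE D) := ((Up i).map (JE D)).topologicalClosure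

/-- the closure of the fields in the lower half space -/
def Am (i : Fin D) : Submodule ℝ (HE D) := ((Um i).map (JE D)).topologicalClosure

lemma JE_Up {i : Fin D} {u : PE D} (hu : u ∈ Up i) : JE D u ∈ Ap i :=
  Submodule.le_topologicalClosure _ (Submodule.mem_map_of_mem hu)

lemma JE_Um {i : Fin D} {u : PE D} (hu : u ∈ Um i) : JE D u ∈ Am i :=
  Submodule.le_topologicalClosure _ (Submodule.mem_map_of_mem hu)

lemma Ap_ind {i : Fin D} {P : HE D → Prop} (hc : IsClosed {x | P x}) (h : ∀ u ∈ Up i, P (JE D u))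
    {x : HE D} (hx : x ∈ Ap i) : P x := by
  have hx' : x ∈ closure (((Up i).map (JE D) : Submodule ℝ (HE D)) : Set (HE D)) := hx
  refine closure_minimal ?_ hc hx'
  rintro _ ⟨u, hu, rfl⟩
  exact h u hu

lemma Am_ind {i : Fin D} {P : HE D → Prop} (hc : IsClosed {x | P x}) (h : ∀ u ∈ Um i, P (JE D u))
    {x : HE D} (hx : x ∈ Am i) : P x := by
  have hx' : x ∈ closure (((Um i).map (JE D) : Submodule ℝ (HE D)) : Set (HE D)) := hx
  refine closure_minimal ?_ hc hx'
  rintro _ ⟨u, hu, rfl⟩
  exact h u hu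

lemma Ap_Am {i : Fin D} {x y : HE D} (hx : x ∈ Ap i) (hy : y ∈ Am i) : inner ℝ x y = 0 := by
  refine Ap_ind (P := fun x => inner ℝ x y = 0) (isClosed_eq (by fun_prop) (by fun_prop)) ?_ hx
  intro u hu
  refine Am_ind (P := fun y => inner ℝ (JE D u) y = 0) (isClosed_eq (by fun_prop) (by fun_prop)) ?_ hy
  intro w hw
  rw [JE_inner, BC_disj hu hw]

lemma Th_Ap {i : Fin D} {x : HE D} (hx : x ∈ Ap i) : Th i x ∈ Am i := by
  refine Ap_ind (P := fun x => Th i x ∈ Am i) ?_ ?_ hx
  · exact IsClosed.preimage (Th i).continuous (Submodule.isClosed_topologicalClosure _)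
  · intro u hu
    rw [Th_JE]
    exact JE_Um (rfT_Up hu)

/-- a source in the upper half space -/
def HalfS (i : Fin D) (f : SrcM D) : Prop := ∀ p : Pt D, p.1 i < 0 → f.1 p = 0

lemma sol_Am {i : Fin D} {f : SrcM D} (hf : HalfS i f) {y : HE D} (hy : y ∈ Am i) :
    inner ℝ (sol f) y = 0 := by
  refine Am_ind (P := fun y => inner ℝ (sol f) y = 0) (isClosed_eq (by fun_prop) (by fun_prop)) ?_ hy
  intro w hw
  rw [sol_inner]
  unfold PR
  have h0 : ∀ p, ∑ k, f.1 p k * fld w p k = 0 := by
    intro p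
    refine Finset.sum_eq_zero fun k _ => ?_
    rcases lt_or_ge (p.1 i) 0 with h | h
    · rw [hf p h]; simp
    · rw [hw p h]; simp
  simp only [h0]
  simp

instance (i : Fin D) : CompleteSpace (Ap i) :=
  (Submodule.isClosed_topologicalClosure _).completeSpace_coe

/-- the part of a vector which is orthogonal to the fields of the upper half space -/
def Mo (i : Fin D) : HE D →L[ℝ] HE D := ContinuousLinearMap.id ℝ (HE D) - (Ap i).starProjection

lemma Mo_eq (i : Fin D) (x : HE D) : x = (Ap i).starProjection x + Mo i x := by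
  unfold Mo
  simp

lemma pr_mem (i : Fin D) (x : HE D) : (Ap i).starProjection x ∈ Ap i :=
  Submodule.starProjection_apply_mem _ _

lemma Mo_orth (i : Fin D) (x : HE D) {y : HE D} (hy : y ∈ Ap i) : inner ℝ (Mo i x) y = 0 := by
  have h := Submodule.sub_starProjection_mem_orthogonal (K := Ap i) x
  have h2 := (Submodule.mem_orthogonal' _ _).1 h y hy
  unfold Mo
  simpa using h2

lemma Mo_sol_Am {i : Fin D} {f : SrcM D} (hf : HalfS i f) {y : HE D} (hy : y ∈ Am i) :
    inner ℝ (Mo i (sol f)) y = 0 := by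
  have h1 := sol_Am hf hy
  rw [Mo_eq i (sol f), inner_add_left, Ap_Am (pr_mem i _) hy, zero_add] at h1
  exact h1

/-- a field which vanishes near the plane splits into two parts -/
lemma split {i : Fin D} {u : Pt D → Fin D → ℝ} (hu : IsTest u) {δ : ℝ} (hδ : 0 < δ)
    (h : ∀ p : Pt D, |p.1 i| < δ → u p = 0) :
    ∃ a ∈ Up i, ∃ b ∈ Um i, mkE hu = a + b := by
  have hpos : ∀ p : Pt D, IsOpen {x : Pt D | 0 < x.1 i} := fun _ =>
    isOpen_lt continuous_const ((continuous_apply i).comp continuous_fst)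
  have hlt : IsOpen {x : Pt D | x.1 i < δ} :=
    isOpen_lt ((continuous_apply i).comp continuous_fst) continuous_const
  have ha : IsTest (fun p : Pt D => if 0 < p.1 i then u p else 0) := by
    refine ⟨?_, ?_, fun y => ?_⟩
    · rw [contDiff_iff_contDiffAt]
      intro p
      by_cases hp : 0 < p.1 i
      · have he : (fun p : Pt D => if 0 < p.1 i then u p else 0) =ᶠ[𝓝 p] u := by
          filter_upwards [(hpos p).mem_nhds hp] with x hx
          exact if_pos hx
        exact hu.smooth.contDiffAt.congr_of_eventuallyEq he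
      · have he : (fun p : Pt D => if 0 < p.1 i then u p else 0) =ᶠ[𝓝 p] fun _ => 0 := by
          filter_upwards [hlt.mem_nhds (show p.1 i < δ by linarith [not_lt.1 hp])] with x hx
          split_ifs with hx0
          · exact h x (by rw [abs_of_pos hx0]; exact hx)
          · rfl
        exact contDiffAt_const.congr_of_eventuallyEq he
    · refine hu.supp.mono fun p hp => ?_
      rw [Function.mem_support] at hp ⊢
      intro h0
      apply hp
      rw [h0]
      split_ifs <;> rfl
    · simp only [hu.wall]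
      split_ifs <;> rfl
  have hb : IsTest (fun p : Pt D => if 0 < p.1 i then 0 else u p) := by
    have e : (fun p : Pt D => if 0 < p.1 i then 0 else u p) =
        u + (-1 : ℝ) • (fun p : Pt D => if 0 < p.1 i then u p else 0) := by
      funext p
      simp only [Pi.add_apply, Pi.smul_apply]
      split_ifs
      · simp
      · simp
    rw [e]
    exact isTest_add hu (ha.smul _)
  refine ⟨mkE ha, ?_, mkE hb, ?_, ?_⟩
  · intro p hp
    rw [fld_mk]
    exact if_neg (not_lt.2 hp)
  · intro p hp
    rw [fld_mk]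
    split_ifs with h0
    · rfl
    · have : p.1 i = 0 := le_antisymm (not_lt.1 h0) hp
      exact h p (by rw [this, abs_zero]; exact hδ)
  · apply Subtype.ext
    show u = (fun p : Pt D => if 0 < p.1 i then u p else 0) + fun p : Pt D => if 0 < p.1 i then 0 else u p
    funext p
    rw [Pi.add_apply]
    by_cases h0 : 0 < p.1 i
    · rw [if_pos h0, if_pos h0, add_zero]
    · rw [if_neg h0, if_neg h0, zero_add]

lemma odd_orth {i : Fin D} (hc : OddCut i) {m : HE D} (hp : ∀ y ∈ Ap i, inner ℝ m y = 0)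
    (hm : ∀ y ∈ Am i, inner ℝ m y = 0) (w : PE D) (hodd : rfF i (fld w) = -fld w) :
    inner ℝ m (JE D w) = 0 := by
  by_contra hne
  have hpos : 0 < |inner ℝ m (JE D w)| := abs_pos.2 hne
  obtain ⟨u', hu', ⟨δ, hδ, hz⟩, hε⟩ := hc (fld w) (fld_test w) hodd
    ((|inner ℝ m (JE D w)| / (‖m‖ + 1)) ^ 2) (by positivity)
  obtain ⟨a, ha, b, hb, hab⟩ := split hu' hδ hz
  have h0 : inner ℝ m (JE D (mkE hu')) = 0 := by
    rw [hab, map_add, inner_add_right, hp _ (JE_Up ha), hm _ (JE_Um hb), add_zero]
  have h1 : inner ℝ m (JE D w) = inner ℝ m (JE D (w - mkE hu')) := by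
    rw [map_sub, inner_sub_right, h0, sub_zero]
  have h2 : ‖JE D (w - mkE hu')‖ < |inner ℝ m (JE D w)| / (‖m‖ + 1) := by
    have h3 : ‖JE D (w - mkE hu')‖ ^ 2 < (|inner ℝ m (JE D w)| / (‖m‖ + 1)) ^ 2 := by
      rw [JE_norm_sq]
      exact hε
    exact lt_of_pow_lt_pow_left₀ 2 (by positivity) h3
  have h4 : |inner ℝ m (JE D w)| ≤ ‖m‖ * ‖JE D (w - mkE hu')‖ := by
    conv_lhs => rw [h1]
    exact abs_real_inner_le_norm _ _
  have h5 : ‖m‖ * ‖JE D (w - mkE hu')‖ ≤ ‖m‖ * (|inner ℝ m (JE D w)| / (‖m‖ + 1)) :=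
    mul_le_mul_of_nonneg_left h2.le (norm_nonneg _)
  have h6 : ‖m‖ * (|inner ℝ m (JE D w)| / (‖m‖ + 1)) < |inner ℝ m (JE D w)| := by
    have hn := norm_nonneg m
    rw [mul_div_assoc', div_lt_iff₀ (by positivity)]
    nlinarith
  linarith

/-- **The Markov property**: what is orthogonal to both half spaces is even. -/
theorem even_of_orth {i : Fin D} (hc : OddCut i) {m : HE D} (hp : ∀ y ∈ Ap i, inner ℝ m y = 0)
    (hm : ∀ y ∈ Am i, inner ℝ m y = 0) : Th i m = m := by
  refine ext_inner fun u => ?_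
  rw [Th_symm, Th_JE]
  rw [← sub_eq_zero, ← inner_sub_right, ← map_sub]
  refine odd_orth hc hp hm _ ?_
  show rfF i (rfF i (fld u) - fld u) = -(rfF i (fld u) - fld u)
  rw [rfF_sub, rfF_rfF]
  abel

/-- **The reflected covariance is a Gram matrix.** -/
theorem Th_sol {i : Fin D} (hc : OddCut i) {f g : SrcM D} (hf : HalfS i f) (hg : HalfS i g) :
    inner ℝ (Th i (sol f)) (sol g) = inner ℝ (Mo i (sol f)) (Mo i (sol g)) := by
  have hm : Th i (Mo i (sol f)) = Mo i (sol f) :=
    even_of_orth hc (fun y hy => Mo_orth i _ hy) (fun y hy => Mo_sol_Am hf hy)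
  have h1 := Th_Ap (pr_mem i (sol f))
  have h2 : inner ℝ (Th i ((Ap i).starProjection (sol f))) (sol g) = 0 := by
    rw [real_inner_comm]
    exact sol_Am hg h1
  have h3 : inner ℝ (Mo i (sol f)) (sol g) = inner ℝ (Mo i (sol f)) (Mo i (sol g)) := by
    conv_lhs => rw [Mo_eq i (sol g), inner_add_right, Mo_orth i _ (pr_mem i _), zero_add]
  conv_lhs => rw [Mo_eq i (sol f), map_add, inner_add_left, h2, zero_add, hm]
  exact h3

end

end Pool.Agent.N990.OS
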