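import Mathlib

/-!
# Exponentials of Gram matrices
-/

set_option autoImplicit false
set_option linter.unusedSectionVars false
set_option linter.unusedVariables false

open scoped Matrix InnerProductSpace ComplexConjugate

namespace Pool.Agent.N990.OS

noncomputable section

variable {n κ : Type*} [Fintype n] [Fintype κ] {E : Type*} [NormedAddCommGroup E]
  [InnerProductSpace ℝ E]

/-- positivity of a real matrix -/
def Psd (K : n → n → ℝ) : Prop := (Matrix.of K).PosSemidef

lemma Psd.sum_nonneg {K : n → n → ℝ} (h : Psd K) (x : n → ℝ) : 0 ≤ ∑ a, ∑ b, x a * x b * K a b := by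
  have h1 := h.dotProduct_mulVec_nonneg x
  refine h1.trans (le_of_eq ?_)
  simp only [dotProduct, Matrix.mulVec, Matrix.of_apply, Pi.star_apply, star_trivial,
    Finset.mul_sum]
  exact Finset.sum_congr rfl fun a _ => Finset.sum_congr rfl fun b _ => by ring

lemma psd_of {K : n → n → ℝ} (hs : ∀ a b, K a b = K b a)
    (h : ∀ x : n → ℝ, 0 ≤ ∑ a, ∑ b, x a * x b * K a b) : Psd K := by
  refine Matrix.PosSemidef.of_dotProduct_mulVec_nonneg ?_ fun x => ?_
  · ext a b
    simp only [Matrix.conjTranspose_apply, Matrix.of_apply, star_trivial]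
    exact hs b a
  · refine (h x).trans (le_of_eq ?_)
    simp only [dotProduct, Matrix.mulVec, Matrix.of_apply, Pi.star_apply, star_trivial,
      Finset.mul_sum]
    exact Finset.sum_congr rfl fun a _ => Finset.sum_congr rfl fun b _ => by ring

lemma Psd.symm {K : n → n → ℝ} (h : Psd K) (a b : n) : K a b = K b a := by
  have := congrFun (congrFun h.isHermitian b) a
  simpa [Matrix.conjTranspose_apply] using this

lemma Psd.mul {K K' : n → n → ℝ} (h : Psd K) (h' : Psd K') : Psd fun a b => K a b * K' a b :=
  Matrix.PosSemidef.hadamard h h'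

lemma psd_one (d : n → ℝ) : Psd fun a b => d a * d b := by
  refine psd_of (fun a b => mul_comm _ _) fun x => ?_
  have : ∑ a, ∑ b, x a * x b * (d a * d b) = (∑ a, x a * d a) * ∑ b, x b * d b := by
    rw [Finset.sum_mul_sum]
    exact Finset.sum_congr rfl fun a _ => Finset.sum_congr rfl fun b _ => by ring
  rw [this]
  exact mul_self_nonneg _

lemma psd_gram (v : n → κ → E) : Psd fun a b => ∑ j, inner ℝ (v a j) (v b j) := by
  refine psd_of (fun a b => Finset.sum_congr rfl fun j _ => real_inner_comm _ _) fun x => ?_
  have : ∑ a, ∑ b, x a * x b * ∑ j, inner ℝ (v a j) (v b j) =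
      ∑ j, inner ℝ (∑ a, x a • v a j) (∑ b, x b • v b j) := by
    simp only [sum_inner, inner_sum, real_inner_smul_left, real_inner_smul_right, Finset.mul_sum]
    rw [Finset.sum_congr rfl fun a _ => Finset.sum_comm]
    rw [Finset.sum_comm]
    exact Finset.sum_congr rfl fun j _ => Finset.sum_congr rfl fun a _ =>
      Finset.sum_congr rfl fun b _ => by
        try rw [real_inner_comm (v a j) (v b j)]
        ring
  rw [this]
  exact Finset.sum_nonneg fun j _ => real_inner_self_nonneg

lemma Psd.pow {K : n → n → ℝ} (h : Psd K) (k : ℕ) : Psd fun a b => K a b ^ k := by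
  induction k with
  | zero => simpa using psd_one (n := n) fun _ => 1
  | succ k ih => simpa [pow_succ] using ih.mul h

lemma Psd.exp {K : n → n → ℝ} (h : Psd K) : Psd fun a b => Real.exp (K a b) := by
  refine psd_of (fun a b => by rw [h.symm a b]) fun x => ?_
  have h1 : HasSum (fun k : ℕ => ∑ a, ∑ b, x a * x b * (K a b ^ k / (Nat.factorial k : ℝ)))
      (∑ a, ∑ b, x a * x b * Real.exp (K a b)) := by
    refine hasSum_sum fun a _ => hasSum_sum fun b _ => ?_
    refine HasSum.mul_left _ ?_
    have := NormedSpace.expSeries_div_hasSum_exp (K a b)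
    rwa [← Real.exp_eq_exp_ℝ] at this
  refine h1.nonneg fun k => ?_
  have : ∑ a, ∑ b, x a * x b * (K a b ^ k / (Nat.factorial k : ℝ)) =
      (∑ a, ∑ b, x a * x b * K a b ^ k) / (Nat.factorial k : ℝ) := by
    rw [Finset.sum_div]
    refine Finset.sum_congr rfl fun a _ => ?_
    rw [Finset.sum_div]
    exact Finset.sum_congr rfl fun b _ => by ring
  rw [this]
  exact div_nonneg ((h.pow k).sum_nonneg x) (by positivity)

/-- the complex form of a positive real matrix is positive -/
lemma re_nonneg {ι : Type*} {G : ι → ι → ℝ} (F : ι →₀ ℂ)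
    (h : Psd (n := F.support) fun a b => G a b) :
    0 ≤ (F.sum fun a x => F.sum fun b y => conj x * y * (G a b : ℂ)).re := by
  have h1 := h.sum_nonneg fun a => (F a).re
  have h2 := h.sum_nonneg fun a => (F a).im
  have e : (F.sum fun a x => F.sum fun b y => conj x * y * (G a b : ℂ)).re =
      ∑ a : F.support, ∑ b : F.support, (F a).re * (F b).re * G a b +
      ∑ a : F.support, ∑ b : F.support, (F a).im * (F b).im * G a b := by
    unfold Finsupp.sum
    rw [← Finset.sum_coe_sort F.support, Complex.re_sum, ← Finset.sum_add_distrib]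
    refine Finset.sum_congr rfl fun a _ => ?_
    beta_reduce
    rw [← Finset.sum_coe_sort F.support, Complex.re_sum, ← Finset.sum_add_distrib]
    refine Finset.sum_congr rfl fun b _ => ?_
    simp only [Complex.mul_re, Complex.mul_im, Complex.conj_re, Complex.conj_im,
      Complex.ofReal_re, Complex.ofReal_im]
    ring
  rw [e]
  exact add_nonneg h1 h2

end

end Pool.Agent.N990.OS
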