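import Pool.Agent.N990.OS.Defs
import Pool.Agent.N990.OS.Pd
import Pool.Agent.N990.OS.Markov
import Pool.Agent.N453.OS2

/-!
# The form of the reflected characteristic functional
-/

set_option autoImplicit false
set_option linter.unusedSectionVars false
set_option linter.unusedVariables false

open MeasureTheory Set Filter Topology
open scoped Classical InnerProductSpace ComplexConjugate

namespace Pool.Agent.N990.OS

open Pool.Agent.N990 Pool.Agent.N990.C
open Pool.Agent.N839.C (BC BC_self BC_cs PR PR_cs CcF N2 N2_nonneg pr_cc dB dB_cc cu cu_cc EC_nonneg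
  poinc EC_vert Cc u_cc pd_cc JC_PR QC_approx EC_lc lc lc_eq lc_test PR_lc PR_comm tr tr_tr tr_cont
  tr_supp QC_tr)
open Pool.Agent.N986.SL (OSForm)

noncomputable section

variable {n D : ℕ}

/-! ### reflections and translations of the test functions -/

lemma refl_eq (i : Fin D) (f : TD n D) (j : Fin n) : refl i f j = rfF i (f j) := rfl

lemma shift_eq (i : Fin D) (t : ℝ) (f : TD n D) (j : Fin n) :
    shift i t f j = tr (Pi.single i t) (f j) := rfl

lemma shift_zero (i : Fin D) (f : TD n D) : shift i 0 f = f := by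
  funext j p
  unfold shift
  simp

lemma shift_shift (i : Fin D) (s t : ℝ) (f : TD n D) : shift i s (shift i t f) = shift i (s + t) f := by
  funext j p
  unfold shift
  congr 1
  ext k
  · simp only [Pi.sub_apply, Pi.single_apply]
    split_ifs
    · ring
    · ring
  · rfl

lemma Half.shift {i : Fin D} {f : TD n D} (hf : Half i f) {t : ℝ} (ht : 0 ≤ t) :
    Half i (shift i t f) := by
  refine ⟨fun j => tr_cont (hf.cont j), fun j => tr_supp (hf.supp j), fun j p hp => ?_⟩
  refine hf.half j _ ?_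
  simp only [Pi.sub_apply, Pi.single_eq_same]
  linarith

lemma Half.zero {i : Fin D} : Half i (0 : TD n D) :=
  ⟨fun _ => continuous_const, fun _ => HasCompactSupport.zero, fun _ _ _ => rfl⟩

lemma Half.smul {i : Fin D} {f : TD n D} (hf : Half i f) (c : ℝ) : Half i (c • f) := by
  refine ⟨fun j => (hf.cont j).const_smul c, fun j => (hf.supp j).smul_left (f := fun _ => c),
    fun j p hp => ?_⟩
  rw [Pi.smul_apply, Pi.smul_apply, hf.half j p hp, smul_zero]

/-- the test functions in the half space -/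
def HT (n : ℕ) (i : Fin D) : Type := {f : TD n D // Half i f}

/-- the component of a test function -/
def sr {i : Fin D} (a : HT n i) (j : Fin n) : SrcM D := ⟨a.1 j, a.2.cont j, a.2.supp j⟩

lemma sr_half {i : Fin D} (a : HT n i) (j : Fin n) : HalfS i (sr a j) := fun p hp => a.2.half j p hp

/-- the zero test function -/
def ht0 (n : ℕ) (i : Fin D) : HT n i := ⟨0, Half.zero⟩

/-- the translated test function -/
def sh {i : Fin D} (t : ℝ) (ht : 0 ≤ t) (a : HT n i) : HT n i := ⟨shift i t a.1, a.2.shift ht⟩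

lemma sh_sh {i : Fin D} {s t : ℝ} (hs : 0 ≤ s) (ht : 0 ≤ t) (a : HT n i) :
    sh s hs (sh t ht a) = sh (s + t) (add_nonneg hs ht) a := Subtype.ext (shift_shift i s t a.1)

lemma sh_zero {i : Fin D} (a : HT n i) : sh 0 le_rfl a = a := Subtype.ext (shift_zero i a.1)

lemma sh_ht0 {i : Fin D} {t : ℝ} (ht : 0 ≤ t) : sh t ht (ht0 n i) = ht0 n i := rfl

/-! ### the kernel -/

/-- the variance -/
def Vr (f : TD n D) : ℝ := ∑ j, QC (f j)

/-- the kernel -/
def Gk {i : Fin D} (a b : HT n i) : ℝ := Real.exp (-Vr (b.1 - refl i a.1) / 2)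

/-- the expectation -/
def dk {i : Fin D} (a : HT n i) : ℝ := Real.exp (-Vr a.1 / 2)

/-- the covariance of the reflected test functions -/
def Ck {i : Fin D} (a b : HT n i) : ℝ := ∑ j, inner ℝ (Mo i (sol (sr a j))) (Mo i (sol (sr b j)))

lemma QC_sub_refl {i : Fin D} (a b : HT n i) (j : Fin n) :
    QC ((b.1 - refl i a.1) j) = QC (b.1 j) + QC (a.1 j) -
      2 * inner ℝ (Mo i (sol (sr a j))) (Mo i (sol (sr b j))) := by
  have e : (b.1 - refl i a.1) j = (sr b j - rfS i (sr a j)).1 := rfl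
  rw [e, QC_sol]
  have h1 : sol (sr b j - rfS i (sr a j)) = sol (sr b j) - Th i (sol (sr a j)) := by
    rw [← sol_rfS]
    exact map_sub (solL D) _ _
  have h2 : QC (b.1 j) = ‖sol (sr b j)‖ ^ 2 := QC_sol (sr b j)
  have h3 : QC (a.1 j) = ‖sol (sr a j)‖ ^ 2 := QC_sol (sr a j)
  have h4 : ‖Th i (sol (sr a j))‖ ^ 2 = ‖sol (sr a j)‖ ^ 2 := by
    rw [← real_inner_self_eq_norm_sq, Th_inner, real_inner_self_eq_norm_sq]
  rw [h1, norm_sub_sq_real, h2, h3, h4, ← Th_sol (oddCut i) (sr_half a j) (sr_half b j),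
    real_inner_comm]
  ring

lemma Vr_sub_refl {i : Fin D} (a b : HT n i) :
    Vr (b.1 - refl i a.1) = Vr b.1 + Vr a.1 - 2 * Ck a b := by
  unfold Vr Ck
  rw [Finset.sum_congr rfl fun j _ => QC_sub_refl a b j, Finset.sum_sub_distrib,
    Finset.sum_add_distrib, Finset.mul_sum]

lemma Gk_eq {i : Fin D} (a b : HT n i) : Gk a b = dk a * dk b * Real.exp (Ck a b) := by
  unfold Gk dk
  rw [Vr_sub_refl, ← Real.exp_add, ← Real.exp_add]
  congr 1
  ring

lemma Ck_symm {i : Fin D} (a b : HT n i) : Ck a b = Ck b a := by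
  unfold Ck
  exact Finset.sum_congr rfl fun j _ => real_inner_comm _ _

lemma Gk_symm {i : Fin D} (a b : HT n i) : Gk a b = Gk b a := by
  rw [Gk_eq, Gk_eq, Ck_symm]
  ring

lemma Vr_nonneg {f : TD n D} (h : ∀ j, Continuous (f j) ∧ HasCompactSupport (f j)) : 0 ≤ Vr f :=
  Finset.sum_nonneg fun j _ => by
    have := QC_sol (⟨f j, h j⟩ : SrcM D)
    rw [this]
    positivity

lemma Gk_pos {i : Fin D} (a b : HT n i) : 0 < Gk a b := Real.exp_pos _

lemma refl_cc {i : Fin D} {f : TD n D} (hf : Half i f) (j : Fin n) :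
    Continuous (refl i f j) ∧ HasCompactSupport (refl i f j) := by
  rw [refl_eq]
  exact ⟨rfF_cont (hf.cont j), rfF_supp (hf.supp j)⟩

lemma sub_refl_cc {i : Fin D} (a b : HT n i) (j : Fin n) :
    Continuous ((b.1 - refl i a.1) j) ∧ HasCompactSupport ((b.1 - refl i a.1) j) :=
  (sr b j - rfS i (sr a j)).2

lemma Gk_le {i : Fin D} (a b : HT n i) : Gk a b ≤ 1 := by
  unfold Gk
  rw [Real.exp_le_one_iff]
  have := Vr_nonneg (sub_refl_cc a b)
  linarith

lemma psd_Gk {i : Fin D} {ι : Type*} [Fintype ι] (v : ι → HT n i) :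
    Psd fun a b => Gk (v a) (v b) := by
  have h1 := (psd_gram (n := ι) fun a (j : Fin n) => Mo i (sol (sr (v a) j))).exp
  have h2 := (psd_one (n := ι) fun a => dk (v a)).mul h1
  refine (congrArg Psd (funext fun a => funext fun b => ?_)).mp h2
  rw [Gk_eq]
  rfl

/-! ### translations and reflections -/
lemma refl_tr {i : Fin D} (t : ℝ) (f : Pt D → Fin D → ℝ) :
    rfF i (tr (Pi.single i t) f) = tr (-(Pi.single i t)) (rfF i f) := by
  funext p k
  show sg i k * f ((rfp i p).1 - Pi.single i t, (rfp i p).2) k =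
    sg i k * f (rfp i (p.1 - -Pi.single i t, p.2)) k
  congr 2
  congr 1
  unfold rfp
  ext l
  · simp only [Pi.sub_apply, Pi.neg_apply, Function.update_apply, Pi.single_apply]
    split_ifs
    · ring
    · ring

lemma Gk_sh {i : Fin D} {t : ℝ} (ht : 0 ≤ t) (a b : HT n i) : Gk (sh t ht a) b = Gk a (sh t ht b) := by
  unfold Gk
  congr 3
  unfold Vr
  refine Finset.sum_congr rfl fun j _ => ?_
  have e1 : (b.1 - refl i (sh t ht a).1) j =
      tr (-(Pi.single i t)) (((sh t ht b).1 - refl i a.1) j) := by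
    have h1 : (b.1 - refl i (sh t ht a).1) j = b.1 j - rfF i (tr (Pi.single i t) (a.1 j)) := rfl
    have h2 : ((sh t ht b).1 - refl i a.1) j = tr (Pi.single i t) (b.1 j) - rfF i (a.1 j) := rfl
    rw [h1, h2, refl_tr]
    have h3 : tr (-(Pi.single i t)) (tr (Pi.single i t) (b.1 j) - rfF i (a.1 j)) =
        tr (-(Pi.single i t)) (tr (Pi.single i t) (b.1 j)) - tr (-(Pi.single i t)) (rfF i (a.1 j)) :=
      rfl
    rw [h3, tr_tr]
  rw [e1]
  have h := sub_refl_cc a (sh t ht b) j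
  exact QC_tr _ h.1 h.2

/-! ### the form -/

/-- the linear combinations of the vectors of the test functions -/
abbrev AA (n : ℕ) (i : Fin D) : Type := HT n i →₀ ℂ

/-- the form -/
def Bk {i : Fin D} (F F' : AA n i) : ℂ :=
  F.sum fun a x => F'.sum fun b y => conj x * y * (Gk a b : ℂ)

/-- the translation -/
def ta {i : Fin D} (t : ℝ) (ht : 0 ≤ t) : AA n i →ₗ[ℂ] AA n i := Finsupp.lmapDomain ℂ ℂ (sh t ht)

lemma Bk_add {i : Fin D} (F F' F'' : AA n i) : Bk F (F' + F'') = Bk F F' + Bk F F'' := by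
  unfold Bk
  rw [← Finsupp.sum_add]
  refine Finsupp.sum_congr fun a _ => ?_
  exact Finsupp.sum_add_index' (fun b => by simp) fun b y y' => by ring

lemma Bk_smul {i : Fin D} (c : ℂ) (F F' : AA n i) : Bk F (c • F') = c * Bk F F' := by
  unfold Bk
  rw [Finsupp.mul_sum]
  refine Finsupp.sum_congr fun a _ => ?_
  rw [Finsupp.sum_smul_index (fun b => by simp), Finsupp.mul_sum]
  exact Finsupp.sum_congr fun b _ => by ring

lemma Bk_symm {i : Fin D} (F F' : AA n i) : Bk F F' = conj (Bk F' F) := by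
  unfold Bk
  rw [map_finsuppSum, Finsupp.sum_comm]
  refine Finsupp.sum_congr fun a _ => ?_
  rw [map_finsuppSum]
  refine Finsupp.sum_congr fun b _ => ?_
  rw [map_mul, map_mul, Complex.conj_conj, Complex.conj_ofReal, Gk_symm]
  ring

lemma Bk_pos {i : Fin D} (F : AA n i) : 0 ≤ (Bk F F).re :=
  re_nonneg (G := Gk) F (psd_Gk fun a : F.support => (a : HT n i))

lemma Bk_ta {i : Fin D} {t : ℝ} (ht : 0 ≤ t) (F F' : AA n i) :
    Bk (ta t ht F) F' = Bk F (ta t ht F') := by
  unfold Bk ta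
  rw [Finsupp.lmapDomain_apply, Finsupp.lmapDomain_apply,
    Finsupp.sum_mapDomain_index (by simp) (fun a x x' => by
      rw [← Finsupp.sum_add]
      refine Finsupp.sum_congr fun b _ => ?_
      rw [map_add]
      ring)]
  refine Finsupp.sum_congr fun a _ => ?_
  rw [Finsupp.sum_mapDomain_index (by simp) (fun b y y' => by ring)]
  refine Finsupp.sum_congr fun b _ => ?_
  rw [Gk_sh]

/-- **Reflection positivity.** -/
theorem osForm {i : Fin D} {t : ℝ} (ht : 0 ≤ t) : OSForm (Bk (n := n) (i := i)) (ta t ht) :=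
  ⟨Bk_add, Bk_smul, Bk_symm, Bk_pos, Bk_ta ht⟩

lemma ta_ta {i : Fin D} {s t : ℝ} (hs : 0 ≤ s) (ht : 0 ≤ t) (F : AA n i) :
    ta s hs (ta t ht F) = ta (s + t) (add_nonneg hs ht) F := by
  unfold ta
  rw [Finsupp.lmapDomain_apply, Finsupp.lmapDomain_apply, Finsupp.lmapDomain_apply,
    ← Finsupp.mapDomain_comp]
  congr 1
  funext a
  exact sh_sh hs ht a

lemma ta_zero {i : Fin D} (F : AA n i) : ta 0 le_rfl F = F := by
  unfold ta
  rw [Finsupp.lmapDomain_apply]
  have : (sh 0 le_rfl : HT n i → HT n i) = id := funext fun a => sh_zero a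
  rw [this, Finsupp.mapDomain_id]

lemma ta_congr {i : Fin D} {s t : ℝ} (hs : 0 ≤ s) (h : s = t) (F : AA n i) :
    ta s hs F = ta t (h ▸ hs) F := by
  subst h
  rfl

lemma ta_iter {i : Fin D} {t : ℝ} (ht : 0 ≤ t) (F : AA n i) (k : ℕ) :
    (ta t ht)^[k] F = ta ((k : ℝ) * t) (by positivity) F := by
  induction k with
  | zero =>
    rw [Function.iterate_zero, id_eq]
    have := ta_congr (i := i) (n := n) le_rfl (show (0 : ℝ) = ((0 : ℕ) : ℝ) * t by simp) F
    rw [← this, ta_zero]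
  | succ k ih =>
    rw [Function.iterate_succ_apply', ih, ta_ta]
    exact ta_congr _ (by push_cast; ring) F

/-- the vacuum -/
def one0 (n : ℕ) (i : Fin D) : AA n i := Finsupp.single (ht0 n i) 1

lemma ta_one {i : Fin D} {t : ℝ} (ht : 0 ≤ t) : ta t ht (one0 n i) = one0 n i := by
  unfold ta one0
  rw [Finsupp.lmapDomain_apply, Finsupp.mapDomain_single, sh_ht0]

lemma QC_zero : QC (0 : Pt D → Fin D → ℝ) = 0 := by
  have := QC_sol (0 : SrcM D)
  have h2 : sol (0 : SrcM D) = 0 := map_zero (solL D)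
  rw [h2, norm_zero] at this
  simpa using this

lemma Ck_zero {i : Fin D} (b : HT n i) : Ck (ht0 n i) b = 0 := by
  unfold Ck
  refine Finset.sum_eq_zero fun j _ => ?_
  have h2 : sol (sr (ht0 n i) j) = 0 := map_zero (solL D)
  rw [h2, map_zero, inner_zero_left]

lemma dk_zero {i : Fin D} : dk (ht0 n i) = 1 := by
  unfold dk Vr
  rw [Real.exp_eq_one_iff]
  have : ∑ j : Fin n, QC ((ht0 n i).1 j) = 0 := Finset.sum_eq_zero fun j _ => QC_zero
  rw [this]
  norm_num

lemma Gk_zero {i : Fin D} (b : HT n i) : Gk (ht0 n i) b = dk b := by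
  rw [Gk_eq, Ck_zero, dk_zero, Real.exp_zero, one_mul, mul_one]

lemma Bk_one {i : Fin D} (F : AA n i) : Bk (one0 n i) F = F.sum fun b y => y * (dk b : ℂ) := by
  unfold Bk one0
  rw [Finsupp.sum_single_index (by simp)]
  refine Finsupp.sum_congr fun b _ => ?_
  rw [map_one, one_mul, Gk_zero]

lemma Bk_one_one {i : Fin D} : Bk (one0 n i) (one0 n i) = 1 := by
  rw [Bk_one]
  unfold one0
  rw [Finsupp.sum_single_index (by simp), dk_zero]
  simp

/-- the iterates are bounded -/
lemma Bk_bdd {i : Fin D} {t : ℝ} (ht : 0 ≤ t) (F : AA n i) :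
    ∃ C : ℝ, ∀ k : ℕ, ‖Bk F ((ta t ht)^[k] F)‖ ≤ C := by
  refine ⟨∑ a ∈ F.support, ∑ b ∈ F.support, ‖F a‖ * ‖F b‖, fun k => ?_⟩
  rw [ta_iter]
  unfold Bk ta
  rw [Finsupp.lmapDomain_apply]
  have h1 : ∀ a, ((Finsupp.mapDomain (sh ((k : ℝ) * t) (by positivity)) F).sum fun b y =>
      conj (F a) * y * (Gk a b : ℂ)) =
      F.sum fun b y => conj (F a) * y * (Gk a (sh ((k : ℝ) * t) (by positivity) b) : ℂ) := by
    intro a
    rw [Finsupp.sum_mapDomain_index (by simp) (fun b y y' => by ring)]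
  unfold Finsupp.sum at h1 ⊢
  rw [Finset.sum_congr rfl fun a _ => h1 a]
  refine (norm_sum_le _ _).trans (Finset.sum_le_sum fun a _ => ?_)
  refine (norm_sum_le _ _).trans (Finset.sum_le_sum fun b _ => ?_)
  rw [norm_mul, norm_mul, RCLike.norm_conj, Complex.norm_real, Real.norm_eq_abs,
    abs_of_pos (Gk_pos _ _)]
  calc ‖F a‖ * ‖F b‖ * Gk a (sh ((k : ℝ) * t) (by positivity) b) ≤ ‖F a‖ * ‖F b‖ * 1 :=
        mul_le_mul_of_nonneg_left (Gk_le _ _) (by positivity)
    _ = ‖F a‖ * ‖F b‖ := mul_one _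

end

end Pool.Agent.N990.OS
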