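import Pool.Agent.N990.OS.Rep

/-!
# The upper bound of the mass gap
-/

set_option autoImplicit false
set_option linter.unusedSectionVars false
set_option linter.unusedVariables false

open MeasureTheory Set Filter Topology
open scoped Classical InnerProductSpace ComplexConjugate

namespace Pool.Agent.N990.OS

open Pool.Agent.N990 Pool.Agent.N990.C
open Pool.Agent.N839.C (BC BC_self BC_cs PR PR_cs CcF N2 N2_nonneg pr_cc dB dB_cc cu cu_cc EC_nonneg
  poinc EC_vert Cc u_cc pd_cc JC_PR QC_approx EC_lc lc lc_eq lc_test PR_lc PR_comm tr tr_tr tr_cont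
  tr_supp QC_tr QC_decay PR_tr tr_eq)

noncomputable section

variable {n D : ℕ} {i : Fin D}

/-! ### small test functions -/

lemma slope_exp (x : ℝ) :
    Tendsto (fun k : ℕ => (Real.exp (1 / ((k : ℝ) + 1) * x) - 1) / (1 / ((k : ℝ) + 1))) atTop
      (𝓝 x) := by
  have h1 : HasDerivAt (fun s : ℝ => Real.exp (s * x)) x 0 := by
    have h2 : HasDerivAt (fun s : ℝ => s * x) x 0 := by
      simpa using (hasDerivAt_id (0 : ℝ)).mul_const x
    have h3 := h2.exp
    simpa using h3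
  have h4 := (hasDerivAt_iff_tendsto_slope.1 h1)
  have h5 : Tendsto (fun k : ℕ => 1 / ((k : ℝ) + 1)) atTop (𝓝[≠] 0) := by
    rw [tendsto_nhdsWithin_iff]
    refine ⟨tendsto_one_div_add_atTop_nhds_zero_nat, Eventually.of_forall fun k => ?_⟩
    have : 0 < 1 / ((k : ℝ) + 1) := by positivity
    exact this.ne'
  refine (h4.comp h5).congr fun k => ?_
  rw [Function.comp_apply, slope_def_field]
  rw [zero_mul, Real.exp_zero, sub_zero]

/-- the linearization of the Cauchy–Schwarz inequality -/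
lemma linearize {q A B C : ℝ}
    (h : ∀ s : ℝ, 0 < s → (Real.exp (s * C) - 1) ^ 2 ≤
      q * ((Real.exp (s * A) - 1) * (Real.exp (s * B) - 1))) : C ^ 2 ≤ q * (A * B) := by
  have h1 := (slope_exp C).pow 2
  have h2 := ((slope_exp A).mul (slope_exp B)).const_mul q
  refine le_of_tendsto_of_tendsto' h1 h2 fun k => ?_
  have hk : 0 < 1 / ((k : ℝ) + 1) := by positivity
  have h3 := h _ hk
  set s := 1 / ((k : ℝ) + 1) with hs
  have e1 : ((Real.exp (s * C) - 1) / s) ^ 2 = (Real.exp (s * C) - 1) ^ 2 / s ^ 2 := by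
    rw [div_pow]
  have e2 : q * ((Real.exp (s * A) - 1) / s * ((Real.exp (s * B) - 1) / s)) =
      q * ((Real.exp (s * A) - 1) * (Real.exp (s * B) - 1)) / s ^ 2 := by
    field_simp
  rw [e1, e2]
  exact div_le_div_of_nonneg_right h3 (by positivity)

/-- the scaled test function -/
def sm (c : ℝ) (a : HT n i) : HT n i := ⟨c • a.1, a.2.smul c⟩

lemma Ck_sm (c d : ℝ) (a b : HT n i) : Ck (sm c a) (sm d b) = c * d * Ck a b := by
  unfold Ck
  rw [Finset.mul_sum]
  refine Finset.sum_congr rfl fun j _ => ?_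
  have h1 : sol (sr (sm c a) j) = c • sol (sr a j) := map_smul (solL D) c (sr a j)
  have h2 : sol (sr (sm d b) j) = d • sol (sr b j) := map_smul (solL D) d (sr b j)
  rw [h1, h2, map_smul, map_smul, real_inner_smul_left, real_inner_smul_right]
  ring

lemma sh_sm {t : ℝ} (ht : 0 ≤ t) (c : ℝ) (a : HT n i) : sh t ht (sm c a) = sm c (sh t ht a) := rfl

lemma Vr_sh {t : ℝ} (ht : 0 ≤ t) (a : HT n i) : Vr (sh t ht a).1 = Vr a.1 :=
  Finset.sum_congr rfl fun j _ => QC_tr _ (a.2.cont j) (a.2.supp j)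

lemma dk_sh {t : ℝ} (ht : 0 ≤ t) (a : HT n i) : dk (sh t ht a) = dk a := by
  unfold dk
  rw [Vr_sh]

lemma dk_pos (a : HT n i) : 0 < dk a := Real.exp_pos _

lemma Ck_self_le (a : HT n i) : Ck a a ≤ Vr a.1 := by
  have h1 := Vr_sub_refl a a
  have h2 := Vr_nonneg (sub_refl_cc a a)
  linarith

lemma Ck_self_nonneg (a : HT n i) : 0 ≤ Ck a a := by
  unfold Ck
  exact Finset.sum_nonneg fun j _ => real_inner_self_nonneg

section rep

variable {H : Type} [NormedAddCommGroup H] [InnerProductSpace ℂ H] [CompleteSpace H]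
  {T : ℝ → H →L[ℂ] H} {J : TD n D → H} (h : IsOS i Sc T J)

/-- the vector of a test function, orthogonal to the vacuum -/
def vv (J : TD n D → H) (a : HT n i) : H := J a.1 - (dk a : ℂ) • J 0

include h

lemma inner_J (a b : HT n i) : inner ℂ (J a.1) (J b.1) = (Gk a b : ℂ) :=
  h.inner_eq a.1 b.1 a.2 b.2

lemma inner_J0_J (b : HT n i) : inner ℂ (J 0) (J b.1) = (dk b : ℂ) := by
  have := inner_J h (ht0 n i) b
  rw [Gk_zero] at this
  exact this

lemma inner_J_J0 (a : HT n i) : inner ℂ (J a.1) (J 0) = (dk a : ℂ) := by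
  have := inner_J h a (ht0 n i)
  rw [Gk_symm, Gk_zero] at this
  exact this

lemma inner_J0_J0 : inner ℂ (J 0) (J 0) = (1 : ℂ) := by
  have := inner_J0_J h (ht0 n i)
  rw [dk_zero, Complex.ofReal_one] at this
  exact this

lemma vv_orth (a : HT n i) : inner ℂ (J 0) (vv J a) = 0 := by
  unfold vv
  rw [inner_sub_right, inner_smul_right, inner_J0_J h, inner_J0_J0 h]
  ring

lemma inner_vv (a b : HT n i) :
    inner ℂ (vv J a) (vv J b) = ((Gk a b - dk a * dk b : ℝ) : ℂ) := by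
  conv_lhs => rw [vv, inner_sub_left, inner_smul_left, vv_orth h, mul_zero, sub_zero, vv]
  rw [inner_sub_right, inner_smul_right, inner_J h, inner_J_J0 h]
  push_cast
  ring

lemma T_vv {t : ℝ} (ht : 0 ≤ t) (a : HT n i) : T t (vv J a) = vv J (sh t ht a) := by
  unfold vv
  rw [map_sub, map_smul, h.transfer t ht a.1 a.2, T_vac h ht, dk_sh]
  rfl

lemma T_orth {t : ℝ} (ht : 0 ≤ t) {x : H} (hx : inner ℂ (J 0) x = 0) :
    inner ℂ (J 0) (T t x) = 0 := by
  rw [← T_inner h ht, T_vac h ht, hx]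

lemma T_iterate {t c : ℝ} (ht : 0 ≤ t) (hc0 : 0 ≤ c)
    (hc : ∀ x, inner ℂ (J 0) x = 0 → ‖T t x‖ ≤ c * ‖x‖) (k : ℕ) {x : H}
    (hx : inner ℂ (J 0) x = 0) : ‖T ((k : ℝ) * t) x‖ ≤ c ^ k * ‖x‖ := by
  induction k with
  | zero =>
    rw [Nat.cast_zero, zero_mul, T_zero h, pow_zero, one_mul]
    rfl
  | succ k ih =>
    have e : ((k + 1 : ℕ) : ℝ) * t = t + (k : ℝ) * t := by
      push_cast
      ring
    rw [e, T_add h ht (by positivity)]
    show ‖T t (T ((k : ℝ) * t) x)‖ ≤ _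
    refine (hc _ (T_orth h (by positivity) hx)).trans ?_
    rw [pow_succ, mul_comm (c ^ k) c, mul_assoc]
    exact mul_le_mul_of_nonneg_left ih hc0

/-- the decay of the covariance -/
lemma Ck_le {t c : ℝ} (ht : 0 ≤ t) (hc0 : 0 ≤ c)
    (hc : ∀ x, inner ℂ (J 0) x = 0 → ‖T t x‖ ≤ c * ‖x‖) (k : ℕ) (a b : HT n i) :
    Ck a (sh ((k : ℝ) * t) (by positivity) b) ^ 2 ≤ (c ^ k) ^ 2 * (Ck a a * Ck b b) := by
  have hkt : 0 ≤ (k : ℝ) * t := by positivity
  -- the inequality for the exponentials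
  have h1 : ∀ a b : HT n i, (Real.exp (Ck a (sh ((k : ℝ) * t) hkt b)) - 1) ^ 2 ≤
      (c ^ k) ^ 2 * ((Real.exp (Ck a a) - 1) * (Real.exp (Ck b b) - 1)) := by
    intro a b
    have hn : ∀ a : HT n i, ‖vv J a‖ ^ 2 = dk a ^ 2 * (Real.exp (Ck a a) - 1) := by
      intro a
      have e1 := @inner_self_eq_norm_sq ℂ _ _ _ _ (vv J a)
      rw [inner_vv h] at e1
      have e2 : (RCLike.re ((Gk a a - dk a * dk a : ℝ) : ℂ) : ℝ) = Gk a a - dk a * dk a :=
        Complex.ofReal_re _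
      rw [← e1, e2, Gk_eq]
      ring
    have hi : ‖inner ℂ (vv J a) (T ((k : ℝ) * t) (vv J b))‖ =
        dk a * dk b * |Real.exp (Ck a (sh ((k : ℝ) * t) hkt b)) - 1| := by
      rw [T_vv h hkt, inner_vv h, Complex.norm_real, Real.norm_eq_abs, Gk_eq, dk_sh]
      have e3 : dk a * dk b * Real.exp (Ck a (sh ((k : ℝ) * t) hkt b)) - dk a * dk b =
          dk a * dk b * (Real.exp (Ck a (sh ((k : ℝ) * t) hkt b)) - 1) := by ring
      rw [e3, abs_mul, abs_of_pos (mul_pos (dk_pos a) (dk_pos b))]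
    have hcs : ‖inner ℂ (vv J a) (T ((k : ℝ) * t) (vv J b))‖ ≤ ‖vv J a‖ * (c ^ k * ‖vv J b‖) :=
      (norm_inner_le_norm _ _).trans
        (mul_le_mul_of_nonneg_left (T_iterate h ht hc0 hc k (vv_orth h b)) (norm_nonneg _))
    rw [hi] at hcs
    have hsq := pow_le_pow_left₀ (by
      have := dk_pos a
      have := dk_pos b
      positivity) hcs 2
    have hda := dk_pos a
    have hdb := dk_pos b
    have e4 : (dk a * dk b * |Real.exp (Ck a (sh ((k : ℝ) * t) hkt b)) - 1|) ^ 2 =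
        (dk a ^ 2 * dk b ^ 2) * (Real.exp (Ck a (sh ((k : ℝ) * t) hkt b)) - 1) ^ 2 := by
      rw [mul_pow, mul_pow, sq_abs]
    have e5 : (‖vv J a‖ * (c ^ k * ‖vv J b‖)) ^ 2 = (dk a ^ 2 * dk b ^ 2) *
        ((c ^ k) ^ 2 * ((Real.exp (Ck a a) - 1) * (Real.exp (Ck b b) - 1))) := by
      rw [mul_pow, mul_pow, hn, hn]
      ring
    rw [e4, e5] at hsq
    exact le_of_mul_le_mul_left hsq (by positivity)
  refine linearize fun s hs => ?_
  have h2 := h1 (sm (Real.sqrt s) a) (sm (Real.sqrt s) b)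
  rw [sh_sm, Ck_sm, Ck_sm, Ck_sm, Real.mul_self_sqrt hs.le] at h2
  exact h2

end rep

/-! ### the pair of sources -/

lemma QC_add_sub (f g : SrcM D) :
    QC (f.1 + g.1) - QC f.1 - QC g.1 = 2 * inner ℝ (sol f) (sol g) := by
  have h1 : QC (f.1 + g.1) = ‖sol (f + g)‖ ^ 2 := QC_sol (f + g)
  have h2 : sol (f + g) = sol f + sol g := map_add (solL D) f g
  rw [h1, h2, QC_sol, QC_sol, norm_add_sq_real]
  ring

/-- one source as a family of test functions -/
def mk1 (j₀ : Fin n) (f : SrcM D) (hf : HalfS i f) : HT n i :=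
  ⟨fun j => if j = j₀ then f.1 else 0, by
    refine ⟨fun j => ?_, fun j => ?_, fun j p hp => ?_⟩
    · split_ifs
      · exact f.2.1
      · exact continuous_const
    · split_ifs
      · exact f.2.2
      · exact HasCompactSupport.zero
    · split_ifs
      · exact hf p hp
      · rfl⟩

lemma sr_mk1 (j₀ : Fin n) (f : SrcM D) (hf : HalfS i f) : sr (mk1 j₀ f hf) j₀ = f := by
  apply Subtype.ext
  show (if j₀ = j₀ then f.1 else 0) = f.1
  rw [if_pos rfl]

lemma sr_mk1_ne {j₀ : Fin n} (f : SrcM D) (hf : HalfS i f) {j : Fin n} (hj : j ≠ j₀) :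
    sr (mk1 j₀ f hf) j = 0 := by
  apply Subtype.ext
  show (if j = j₀ then f.1 else 0) = 0
  rw [if_neg hj]

lemma Ck_mk1 (j₀ : Fin n) (f : SrcM D) (hf : HalfS i f) (b : HT n i) :
    Ck (mk1 j₀ f hf) b = inner ℝ (sol (rfS i f)) (sol (sr b j₀)) := by
  unfold Ck
  rw [Finset.sum_eq_single j₀]
  · rw [← Th_sol (oddCut i) (sr_half _ _) (sr_half _ _), sr_mk1, sol_rfS]
  · intro j _ hj
    have h0 : sol (sr (mk1 j₀ f hf) j) = 0 := by
      rw [sr_mk1_ne f hf hj]
      exact map_zero (solL D)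
    rw [h0, map_zero, inner_zero_left]
  · intro h
    exact absurd (Finset.mem_univ _) h

lemma Vr_mk1 (j₀ : Fin n) (f : SrcM D) (hf : HalfS i f) : Vr (mk1 j₀ f hf).1 = QC f.1 := by
  unfold Vr
  rw [Finset.sum_eq_single j₀]
  · show QC (if j₀ = j₀ then f.1 else 0) = QC f.1
    rw [if_pos rfl]
  · intro j _ hj
    show QC (if j = j₀ then f.1 else 0) = 0
    rw [if_neg hj]
    exact QC_zero
  · intro h
    exact absurd (Finset.mem_univ _) h

/-- the covariance does not decay faster than `exp (-π / 2 R)` -/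
def NotRate (i : Fin D) : Prop := ∀ m : ℝ, Real.pi / 2 < m → ¬ ∃ C : ℝ,
  ∀ (f g : Pt D → Fin D → ℝ) (R : ℝ), Continuous f → Continuous g →
    HasCompactSupport f → HasCompactSupport g → 0 ≤ R →
    (∀ p, f p ≠ 0 → p.1 i ≤ 0) → (∀ q, g q ≠ 0 → R ≤ q.1 i) →
    |QC (f + g) - QC f - QC g| ≤ C * Real.exp (-(m * R)) * Real.sqrt (QC f * QC g)

/-- **The mass gap is at most `π / 2`.** -/
theorem gap_le (hnr : NotRate i) {H : Type} [NormedAddCommGroup H] [InnerProductSpace ℂ H]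
    [CompleteSpace H] {T : ℝ → H →L[ℂ] H} {J : TD n D → H} (h : IsOS i Sc T J) (hn : 1 ≤ n) {t : ℝ}
    (ht : 0 < t) {c : ℝ} (hc0 : 0 ≤ c) (hc : ∀ x, inner ℂ (J 0) x = 0 → ‖T t x‖ ≤ c * ‖x‖) :
    Real.exp (-(Real.pi / 2 * t)) ≤ c := by
  by_contra hlt
  rw [not_le] at hlt
  obtain ⟨y, hy1, hy2⟩ := exists_between hlt
  have hy0 : 0 < y := lt_of_le_of_lt hc0 hy1
  obtain ⟨m, hm⟩ : ∃ m : ℝ, m = -Real.log y / t := ⟨_, rfl⟩
  have hmt : Real.exp (-(m * t)) = y := by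
    rw [hm, div_mul_cancel₀ _ ht.ne', neg_neg, Real.exp_log hy0]
  have hmpi : Real.pi / 2 < m := by
    rw [← hmt] at hy2
    have h1 := Real.exp_lt_exp.1 hy2
    have h2 : Real.pi / 2 * t < m * t := by linarith
    exact lt_of_mul_lt_mul_right h2 ht.le
  have hm0 : 0 ≤ m := by linarith [Real.pi_pos]
  have hcm : ∀ x, inner ℂ (J 0) x = 0 → ‖T t x‖ ≤ y * ‖x‖ := fun x hx =>
    (hc x hx).trans (mul_le_mul_of_nonneg_right hy1.le (norm_nonneg _))
  refine hnr m hmpi ⟨2 * Real.exp (m * t), fun f g R hf hg hfs hgs hR hfi hgi => ?_⟩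
  set fS : SrcM D := ⟨f, hf, hfs⟩ with hfS
  set gS : SrcM D := ⟨g, hg, hgs⟩ with hgS
  obtain ⟨k, hk⟩ : ∃ k : ℕ, k = ⌊R / t⌋₊ := ⟨_, rfl⟩
  have hk1 : (k : ℝ) * t ≤ R := by
    have := Nat.floor_le (div_nonneg hR ht.le)
    rw [← hk, le_div_iff₀ ht] at this
    exact this
  have hk2 : R ≤ (k : ℝ) * t + t := by
    have := (Nat.lt_floor_add_one (R / t)).le
    rw [← hk, div_le_iff₀ ht] at this
    linarith
  have hkt : 0 ≤ (k : ℝ) * t := by positivity
  have ha : HalfS i (rfS i fS) := by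
    intro p hp
    rw [rfS_val]
    funext l
    unfold rfF
    have : f (rfp i p) = 0 := by
      by_contra h0
      have h1 := hfi _ h0
      rw [rfp_i] at h1
      linarith
    rw [show fS.1 = f from rfl, this]
    simp
  have hb : HalfS i (trS i (-((k : ℝ) * t)) gS) := by
    intro p hp
    show g (p.1 - Pi.single i (-((k : ℝ) * t)), p.2) = 0
    by_contra h0
    have h1 := hgi _ h0
    simp only [Pi.sub_apply, Pi.single_eq_same] at h1
    linarith
  have j₀ : Fin n := ⟨0, hn⟩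
  obtain ⟨a, ha'⟩ : ∃ a : HT n i, a = mk1 j₀ (rfS i fS) ha := ⟨_, rfl⟩
  obtain ⟨b, hb'⟩ : ∃ b : HT n i, b = mk1 j₀ (trS i (-((k : ℝ) * t)) gS) hb := ⟨_, rfl⟩
  have hff : rfS i (rfS i fS) = fS := Subtype.ext (rfF_rfF i f)
  have hgg : sr (sh ((k : ℝ) * t) hkt b) j₀ = gS := by
    apply Subtype.ext
    have e1 : (sr (sh ((k : ℝ) * t) hkt b) j₀).1 = tr (Pi.single i ((k : ℝ) * t)) (sr b j₀).1 := rfl
    rw [e1, hb', sr_mk1]
    show tr (Pi.single i ((k : ℝ) * t)) (tr (Pi.single i (-((k : ℝ) * t))) g) = g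
    rw [Pi.single_neg]
    have := tr_tr (-(Pi.single i ((k : ℝ) * t))) g
    rwa [neg_neg] at this
  have h1 := Ck_le h ht.le hy0.le hcm k a b
  have h2 : Ck a (sh ((k : ℝ) * t) hkt b) = inner ℝ (sol fS) (sol gS) := by
    rw [ha', Ck_mk1, hff, hgg]
  have h3 : Ck a a ≤ QC f := by
    refine (Ck_self_le a).trans (le_of_eq ?_)
    rw [ha', Vr_mk1]
    have e2 : QC (rfS i fS).1 = ‖sol (rfS i fS)‖ ^ 2 := QC_sol _
    have e3 : QC f = ‖sol fS‖ ^ 2 := QC_sol fS
    have e4 : ‖Th i (sol fS)‖ ^ 2 = ‖sol fS‖ ^ 2 := by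
      rw [← real_inner_self_eq_norm_sq, Th_inner, real_inner_self_eq_norm_sq]
    rw [e2, e3, sol_rfS, e4]
  have h4 : Ck b b ≤ QC g := by
    refine (Ck_self_le b).trans (le_of_eq ?_)
    rw [hb', Vr_mk1]
    exact QC_tr _ hg hgs
  have hQf : 0 ≤ QC f := (Ck_self_nonneg a).trans h3
  have hQg : 0 ≤ QC g := (Ck_self_nonneg b).trans h4
  have h5 : inner ℝ (sol fS) (sol gS) ^ 2 ≤ (y ^ k) ^ 2 * (QC f * QC g) := by
    rw [← h2]
    refine h1.trans (mul_le_mul_of_nonneg_left ?_ (by positivity))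
    exact mul_le_mul h3 h4 (Ck_self_nonneg b) hQf
  have h6 : |inner ℝ (sol fS) (sol gS)| ≤ y ^ k * Real.sqrt (QC f * QC g) := by
    refine abs_le_of_sq_le_sq ?_ (by positivity)
    rw [mul_pow, Real.sq_sqrt (mul_nonneg hQf hQg)]
    exact h5
  have h7 : y ^ k ≤ Real.exp (m * t) * Real.exp (-(m * R)) := by
    rw [← hmt, ← Real.exp_nat_mul, ← Real.exp_add]
    refine Real.exp_le_exp.2 ?_
    have := mul_le_mul_of_nonneg_left hk2 hm0
    nlinarith
  have h8 := QC_add_sub fS gS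
  rw [show fS.1 = f from rfl, show gS.1 = g from rfl] at h8
  rw [h8, abs_mul, abs_of_pos (by norm_num : (0 : ℝ) < 2)]
  have h9 : y ^ k * Real.sqrt (QC f * QC g) ≤
      Real.exp (m * t) * Real.exp (-(m * R)) * Real.sqrt (QC f * QC g) :=
    mul_le_mul_of_nonneg_right h7 (Real.sqrt_nonneg _)
  calc 2 * |inner ℝ (sol fS) (sol gS)| ≤
      2 * (Real.exp (m * t) * Real.exp (-(m * R)) * Real.sqrt (QC f * QC g)) := by linarith
    _ = 2 * Real.exp (m * t) * Real.exp (-(m * R)) * Real.sqrt (QC f * QC g) := by ring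

/-- **The mass gap.** -/
theorem massGap (hnr : NotRate i) {H : Type} [NormedAddCommGroup H] [InnerProductSpace ℂ H]
    [CompleteSpace H] {T : ℝ → H →L[ℂ] H} {J : TD n D → H} (h : IsOS i Sc T J) (hn : 1 ≤ n) :
    MassGap T (J 0) (Real.pi / 2) := by
  intro t ht
  refine ⟨⟨(Real.exp_pos _).le, fun x hx => gap_ge h ht hx⟩, ?_⟩
  rintro c ⟨hc0, hc⟩
  rcases ht.eq_or_lt with h0 | h0
  · rw [← h0, mul_zero, neg_zero, Real.exp_zero]
    by_contra hlt
    rw [not_le] at hlt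
    have hz : ∀ x, inner ℂ (J 0) x = 0 → x = 0 := by
      intro x hx
      have h1 := hc x hx
      rw [← h0, T_zero h] at h1
      have h2 : ‖x‖ ≤ c * ‖x‖ := h1
      have h3 : ‖x‖ ≤ 0 := by
        have := norm_nonneg x
        nlinarith
      exact norm_le_zero_iff.1 h3
    have h4 := gap_le hnr h hn one_pos le_rfl (c := 0) fun x hx => by
      rw [hz x hx, map_zero, norm_zero, mul_zero]
    exact absurd h4 (not_le.2 (Real.exp_pos _))
  · exact gap_le hnr h hn h0 hc0 hc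

end

end Pool.Agent.N990.OS
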