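import Pool.Agent.N990.OS.Eng

/-!
# The reflection
-/

set_option autoImplicit false
set_option linter.unusedSectionVars false
set_option linter.unusedVariables false

open MeasureTheory Set Filter Topology
open scoped Classical InnerProductSpace

namespace Pool.Agent.N990.OS

open Pool.Agent.N990 Pool.Agent.N990.C
open Pool.Agent.N839.C (BC BC_self BC_cs PR PR_cs CcF N2 N2_nonneg pr_cc dB dB_cc cu cu_cc EC_nonneg
  poinc EC_vert Cc u_cc pd_cc JC_PR QC_approx EC_lc lc lc_eq lc_test PR_lc PR_comm)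

noncomputable section

variable {D : ℕ}

/-- the sign of the component `k` under the reflection in the direction `i` -/
def sg (i k : Fin D) : ℝ := if k = i then -1 else 1

lemma sg_sq (i k : Fin D) : sg i k * sg i k = 1 := by
  unfold sg; split_ifs <;> norm_num

/-- the reflection of the points -/
def rfp (i : Fin D) (p : Pt D) : Pt D := (Function.update p.1 i (-p.1 i), p.2)

lemma rfp_eq (i : Fin D) (p : Pt D) : rfp i p = (fun k => sg i k * p.1 k, p.2) := by
  unfold rfp sg
  ext k
  · simp only [Function.update_apply]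
    split_ifs with h
    · rw [h]; ring
    · ring
  · rfl

lemma rfp_rfp (i : Fin D) (p : Pt D) : rfp i (rfp i p) = p := by
  rw [rfp_eq, rfp_eq]
  ext k
  · simp only
    rw [← mul_assoc, sg_sq, one_mul]
  · rfl

/-- the reflection of the points as a linear map -/
def rfL (i : Fin D) : Pt D →L[ℝ] Pt D :=
  (ContinuousLinearMap.pi fun k => sg i k • (ContinuousLinearMap.proj (R := ℝ) (φ := fun _ : Fin D => ℝ) k).comp
    (ContinuousLinearMap.fst ℝ (Fin D → ℝ) ℝ)).prod (ContinuousLinearMap.snd ℝ (Fin D → ℝ) ℝ)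

lemma rfL_apply (i : Fin D) (p : Pt D) : rfL i p = rfp i p := by
  rw [rfp_eq]
  rfl

lemma rfL_ez (i : Fin D) : rfL i (ez D) = ez D := by
  rw [rfL_apply, rfp_eq]
  unfold ez
  ext k <;> simp

lemma rfL_eh (i k : Fin D) : rfL i (eh k) = sg i k • eh k := by
  rw [rfL_apply, rfp_eq]
  unfold eh
  ext j
  · simp only [Prod.smul_mk, Pi.smul_apply, smul_eq_mul, Pi.single_apply]
    by_cases h : j = k
    · rw [h]
    · rw [if_neg h]; ring
  · simp

lemma rfp_mp (i : Fin D) : MeasurePreserving (rfp i : Pt D → Pt D) volume volume := by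
  have h1 : MeasurePreserving (fun (y : Fin D → ℝ) (k : Fin D) => sg i k * y k) volume volume := by
    refine volume_preserving_pi (f := fun (k : Fin D) (t : ℝ) => sg i k * t) fun k => ?_
    unfold sg
    split_ifs
    · simp only [neg_one_mul]
      exact Measure.measurePreserving_neg volume
    · simp only [one_mul]
      exact MeasurePreserving.id volume
  have h2 := h1.prod (MeasurePreserving.id (volume : Measure ℝ))
  have e : (rfp i : Pt D → Pt D) = Prod.map (fun (y : Fin D → ℝ) (k : Fin D) => sg i k * y k) id := by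
    funext p
    rw [rfp_eq]
    rfl
  rw [e, Measure.volume_eq_prod]
  exact h2

lemma rfp_slab (i : Fin D) (p : Pt D) : rfp i p ∈ Slb D ↔ p ∈ Slb D := Iff.rfl

/-- the reflection as an equivalence -/
def rfE (i : Fin D) : Pt D ≃ᵐ Pt D where
  toFun := rfp i
  invFun := rfp i
  left_inv := rfp_rfp i
  right_inv := rfp_rfp i
  measurable_toFun := (rfp_mp i).measurable
  measurable_invFun := (rfp_mp i).measurable

lemma int_rfp (i : Fin D) (g : Pt D → ℝ) : ∫ p in Slb D, g (rfp i p) = ∫ p in Slb D, g p := by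
  have h := (rfp_mp i).setIntegral_preimage_emb (rfE i).measurableEmbedding g (Slb D)
  have e : (rfp i : Pt D → Pt D) ⁻¹' Slb D = Slb D := by
    ext p
    exact rfp_slab i p
  rw [e] at h
  exact h

/-- the reflection of the fields -/
def rfF (i : Fin D) (f : Pt D → Fin D → ℝ) : Pt D → Fin D → ℝ := fun p k => sg i k * f (rfp i p) k

lemma rfF_rfF (i : Fin D) (f : Pt D → Fin D → ℝ) : rfF i (rfF i f) = f := by
  funext p k
  unfold rfF
  rw [← mul_assoc, sg_sq, one_mul, rfp_rfp]

lemma rfF_add (i : Fin D) (f g : Pt D → Fin D → ℝ) : rfF i (f + g) = rfF i f + rfF i g := by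
  funext p k
  unfold rfF
  simp only [Pi.add_apply]
  ring

lemma rfF_smul (i : Fin D) (c : ℝ) (f : Pt D → Fin D → ℝ) : rfF i (c • f) = c • rfF i f := by
  funext p k
  unfold rfF
  simp only [Pi.smul_apply, smul_eq_mul]
  ring

lemma rfF_sub (i : Fin D) (f g : Pt D → Fin D → ℝ) : rfF i (f - g) = rfF i f - rfF i g := by
  funext p k
  unfold rfF
  simp only [Pi.sub_apply]
  ring

lemma rfF_neg (i : Fin D) (f : Pt D → Fin D → ℝ) : rfF i (-f) = -rfF i f := by
  funext p k
  unfold rfF
  simp only [Pi.neg_apply]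
  ring

/-- the linear map on the values -/
def sgL (i : Fin D) : (Fin D → ℝ) →L[ℝ] (Fin D → ℝ) :=
  ContinuousLinearMap.pi fun k => sg i k • ContinuousLinearMap.proj (R := ℝ) (φ := fun _ : Fin D => ℝ) k

lemma rfF_comp (i : Fin D) (f : Pt D → Fin D → ℝ) : rfF i f = fun p => sgL i (f (rfL i p)) := by
  funext p k
  unfold rfF
  rw [rfL_apply]
  rfl

lemma rfF_cont {i : Fin D} {f : Pt D → Fin D → ℝ} (hf : Continuous f) : Continuous (rfF i f) := by
  rw [rfF_comp]
  exact (sgL i).continuous.comp (hf.comp (rfL i).continuous)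

lemma rfF_supp {i : Fin D} {f : Pt D → Fin D → ℝ} (hf : HasCompactSupport f) :
    HasCompactSupport (rfF i f) := by
  obtain ⟨R, hR⟩ := hf.isCompact.isBounded.subset_closedBall (0 : Pt D)
  refine HasCompactSupport.intro (isCompact_closedBall (0 : Pt D) R) fun p hp => ?_
  have h1 : f (rfp i p) = 0 := by
    by_contra h
    have h2 := hR (subset_tsupport _ (Function.mem_support.2 h))
    apply hp
    rw [mem_closedBall_zero_iff] at h2 ⊢
    refine le_trans (le_of_eq ?_) h2
    rw [rfp_eq, Prod.norm_def, Prod.norm_def]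
    congr 1
    simp only [Pi.norm_def]
    congr 2
    funext k
    rw [nnnorm_mul]
    have : ‖sg i k‖₊ = 1 := by
      unfold sg
      split_ifs <;> simp
    rw [this, one_mul]
  funext k
  unfold rfF
  rw [h1]
  simp

lemma rfF_test {i : Fin D} {u : Pt D → Fin D → ℝ} (hu : IsTest u) : IsTest (rfF i u) := by
  refine ⟨?_, rfF_supp hu.supp, fun y => ?_⟩
  · rw [rfF_comp]
    exact (sgL i).contDiff.comp (hu.smooth.comp (rfL i).contDiff)
  · funext k
    unfold rfF rfp
    rw [hu.wall]
    simp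

lemma pd_rfF {i : Fin D} {u : Pt D → Fin D → ℝ} (hu : IsTest u) (e : Pt D) (k : Fin D) (p : Pt D) :
    pd (rfF i u) e k p = sg i k * pd u (rfL i e) k (rfp i p) := by
  have h1 : HasFDerivAt (rfF i u) ((sgL i).comp ((fderiv ℝ u (rfL i p)).comp (rfL i))) p := by
    rw [rfF_comp]
    exact (sgL i).hasFDerivAt.comp p
      (((hu.smooth.differentiable one_ne_zero (rfL i p)).hasFDerivAt).comp p (rfL i).hasFDerivAt)
  unfold pd
  rw [h1.fderiv, ← rfL_apply]
  rfl

lemma pd_smul_dir {u : Pt D → Fin D → ℝ} (c : ℝ) (e : Pt D) (k : Fin D) (p : Pt D) :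
    pd u (c • e) k p = c * pd u e k p := by
  unfold pd
  rw [map_smul]
  rfl

lemma cu_rfF {i : Fin D} {u : Pt D → Fin D → ℝ} (hu : IsTest u) (a b : Fin D) (p : Pt D) :
    cu (rfF i u) a b p = (sg i a * sg i b) * cu u a b (rfp i p) := by
  unfold cu
  rw [pd_rfF hu, pd_rfF hu, rfL_eh, rfL_eh, pd_smul_dir, pd_smul_dir]
  ring

lemma dB_rfF {i : Fin D} {u w : Pt D → Fin D → ℝ} (hu : IsTest u) (hw : IsTest w) (p : Pt D) :
    dB (rfF i u) (rfF i w) p = dB u w (rfp i p) := by
  unfold dB
  congr 1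
  · refine Finset.sum_congr rfl fun k _ => ?_
    rw [pd_rfF hu, pd_rfF hw, rfL_ez]
    have := sg_sq i k
    linear_combination (pd u (ez D) k (rfp i p) * pd w (ez D) k (rfp i p)) * this
  · refine Finset.sum_congr rfl fun a _ => Finset.sum_congr rfl fun b _ => ?_
    rw [cu_rfF hu, cu_rfF hw]
    have h1 := sg_sq i a
    have h2 := sg_sq i b
    split_ifs
    · calc _ = (sg i a * sg i a) * (sg i b * sg i b) * (cu u a b (rfp i p) * cu w a b (rfp i p)) := by
            ring
        _ = _ := by rw [h1, h2]; ring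
    · rfl

lemma BC_rfF {i : Fin D} {u w : Pt D → Fin D → ℝ} (hu : IsTest u) (hw : IsTest w) :
    BC (rfF i u) (rfF i w) = BC u w := by
  unfold BC
  rw [← int_rfp i (dB u w)]
  congr 1
  funext p
  exact dB_rfF hu hw p

lemma PR_rfF {i : Fin D} (f u : Pt D → Fin D → ℝ) : PR (rfF i f) (rfF i u) = PR f u := by
  unfold PR
  rw [← int_rfp i (fun p => ∑ k, f p k * u p k)]
  congr 1
  funext p
  refine Finset.sum_congr rfl fun k _ => ?_
  unfold rfF
  have := sg_sq i k
  linear_combination (f (rfp i p) k * u (rfp i p) k) * this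

/-! ### the reflection of the energy space -/

/-- the reflection of the test fields -/
def rfT (i : Fin D) : PE D →ₗ[ℝ] PE D where
  toFun := fun u => mkE (rfF_test (i := i) (fld_test u))
  map_add' := fun u w => Subtype.ext (rfF_add i _ _)
  map_smul' := fun c u => Subtype.ext (rfF_smul i c _)

lemma fld_rfT (i : Fin D) (u : PE D) : fld (rfT i u) = rfF i (fld u) := rfl

lemma JE_rfT_norm (i : Fin D) (u : PE D) : ‖JE D (rfT i u)‖ = ‖JE D u‖ := by
  rw [JE_norm, JE_norm, fld_rfT, ← BC_self, BC_rfF (fld_test u) (fld_test u), BC_self]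

/-- the reflection of the energy space -/
def Th (i : Fin D) : HE D →L[ℝ] HE D := ((JE D) ∘ₗ (rfT i)).extendOfNorm (JE D)

lemma Th_JE (i : Fin D) (u : PE D) : Th i (JE D u) = JE D (rfT i u) := by
  unfold Th
  rw [LinearMap.extendOfNorm_eq JE_dense ⟨1, fun u => by
    rw [one_mul]
    exact (JE_rfT_norm i u).le⟩]
  rfl

lemma Th_Th (i : Fin D) (x : HE D) : Th i (Th i x) = x := by
  refine DenseRange.induction_on JE_dense x (isClosed_eq (by fun_prop) (by fun_prop)) fun u => ?_
  rw [Th_JE, Th_JE]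
  congr 1
  exact Subtype.ext (rfF_rfF i _)

lemma Th_inner (i : Fin D) (x y : HE D) : inner ℝ (Th i x) (Th i y) = inner ℝ x y := by
  refine DenseRange.induction_on₂ JE_dense (isClosed_eq (by fun_prop) (by fun_prop)) ?_ x y
  intro u w
  rw [Th_JE, Th_JE, JE_inner, JE_inner, fld_rfT, fld_rfT, BC_rfF (fld_test u) (fld_test w)]

lemma Th_symm (i : Fin D) (x y : HE D) : inner ℝ (Th i x) y = inner ℝ x (Th i y) := by
  rw [← Th_inner i (Th i x) y, Th_Th]

/-- the reflection of the sources -/
def rfS (i : Fin D) : SrcM D →ₗ[ℝ] SrcM D where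
  toFun := fun f => ⟨rfF i f.1, rfF_cont f.2.1, rfF_supp f.2.2⟩
  map_add' := fun f g => Subtype.ext (rfF_add i _ _)
  map_smul' := fun c f => Subtype.ext (rfF_smul i c _)

lemma rfS_val (i : Fin D) (f : SrcM D) : (rfS i f).1 = rfF i f.1 := rfl

lemma sol_rfS (i : Fin D) (f : SrcM D) : sol (rfS i f) = Th i (sol f) := by
  refine ext_inner fun u => ?_
  rw [Th_symm, Th_JE, sol_inner, sol_inner, fld_rfT, rfS_val]
  rw [← PR_rfF (i := i) f.1 (rfF i (fld u)), rfF_rfF]

end

end Pool.Agent.N990.OS
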