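import Pool.Agent.N990.OS.Dec

/-!
# The reconstruction
-/

set_option autoImplicit false
set_option linter.unusedSectionVars false
set_option linter.unusedVariables false

open MeasureTheory Set Filter Topology
open scoped Classical InnerProductSpace ComplexConjugate

namespace Pool.Agent.N990.OS

open Pool.Agent.N990 Pool.Agent.N990.C
open Pool.Agent.N986.SL (OSForm os_gap exists_os)

noncomputable section

variable {n D : ℕ} {i : Fin D}

/-! ### representations of the form -/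

section rep

variable {H : Type} [NormedAddCommGroup H] [InnerProductSpace ℂ H] [CompleteSpace H]
  {T : ℝ → H →L[ℂ] H} {J : TD n D → H}

/-- the linear extension of `J` -/
def Jl (i : Fin D) (J : TD n D → H) : AA n i →ₗ[ℂ] H :=
  Finsupp.linearCombination ℂ fun a : HT n i => J a.1

variable (h : IsOS i Sc T J)

include h

lemma Jl_dense : DenseRange (Jl i J) := by
  have h1 : Set.range (fun a : HT n i => J a.1) = J '' {f | Half i f} := by
    ext x
    constructor
    · rintro ⟨a, rfl⟩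
      exact ⟨a.1, a.2, rfl⟩
    · rintro ⟨f, hf, rfl⟩
      exact ⟨⟨f, hf⟩, rfl⟩
  have h2 : Set.range (Jl i J) = (Submodule.span ℂ (J '' {f | Half i f}) : Set H) := by
    rw [← h1]
    unfold Jl
    rw [← Finsupp.range_linearCombination]
    rfl
  unfold DenseRange
  rw [h2]
  exact h.dense

lemma Jl_inner (F F' : AA n i) : inner ℂ (Jl i J F) (Jl i J F') = Bk F F' := by
  unfold Jl Bk
  rw [Finsupp.linearCombination_apply, Finsupp.linearCombination_apply, Finsupp.sum_inner]
  refine Finsupp.sum_congr fun a _ => ?_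
  rw [Finsupp.inner_sum]
  refine Finsupp.sum_congr fun b _ => ?_
  rw [inner_smul_left, inner_smul_right, h.inner_eq a.1 b.1 a.2 b.2, ← mul_assoc]
  rfl

lemma T_Jl {t : ℝ} (ht : 0 ≤ t) (F : AA n i) : T t (Jl i J F) = Jl i J (ta t ht F) := by
  unfold Jl ta
  rw [Finsupp.lmapDomain_apply, Finsupp.linearCombination_mapDomain, Finsupp.linearCombination_apply,
    Finsupp.linearCombination_apply, map_finsuppSum]
  refine Finsupp.sum_congr fun a _ => ?_
  rw [map_smul, h.transfer t ht a.1 a.2]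
  rfl

lemma Jl_one : Jl i J (one0 n i) = J 0 := by
  unfold Jl one0
  rw [Finsupp.linearCombination_single, one_smul]
  rfl

lemma gap0 {t : ℝ} (ht : 0 < t) {m : ℝ} (hm0 : 0 < m) (hm : m < Real.pi / 2) :
    IsSelfAdjoint (T t) ∧ ‖T t‖ ≤ 1 ∧ T t (J 0) = J 0 ∧ ‖J 0‖ = 1 ∧
    (∀ x, inner ℂ (J 0) x = 0 → ‖T t x‖ ≤ Real.exp (-(m * t)) * ‖x‖) := by
  have h1 := os_gap (osForm (n := n) (i := i) ht.le) (Jl i J) (T t) (Jl_dense h) (Jl_inner h)
    (fun F => T_Jl h ht.le F) (one := one0 n i) (ta_one ht.le) Bk_one_one (m := m * t)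
    (mul_pos hm0 ht) (fun F => by
      obtain ⟨C, hC⟩ := Bk_decay F hm
      refine ⟨C, fun k => ?_⟩
      rw [ta_iter]
      have := hC ((k : ℝ) * t) (by positivity)
      refine this.trans (le_of_eq ?_)
      congr 2
      ring)
  rw [Jl_one h] at h1
  exact ⟨h1.1, h1.2.1, h1.2.2.1, h1.2.2.2.1, h1.2.2.2.2.1⟩

lemma ext_T {A B : H →L[ℂ] H} (hAB : ∀ F : AA n i, A (Jl i J F) = B (Jl i J F)) : A = B := by
  ext x
  refine DenseRange.induction_on (Jl_dense h) x (isClosed_eq (by fun_prop) (by fun_prop)) hAB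

lemma T_zero : T 0 = 1 := by
  refine ext_T h fun F => ?_
  rw [T_Jl h le_rfl, ta_zero]
  rfl

lemma T_add {s t : ℝ} (hs : 0 ≤ s) (ht : 0 ≤ t) : T (s + t) = T s * T t := by
  refine ext_T h fun F => ?_
  rw [T_Jl h (add_nonneg hs ht)]
  show _ = T s (T t (Jl i J F))
  rw [T_Jl h ht, T_Jl h hs, ta_ta]

lemma T_sa {t : ℝ} (ht : 0 ≤ t) : IsSelfAdjoint (T t) := by
  rcases ht.eq_or_lt with h0 | h0
  · rw [← h0, T_zero h]
    exact IsSelfAdjoint.one _
  · exact (gap0 h h0 one_pos (by linarith [Real.pi_gt_three])).1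

lemma T_norm {t : ℝ} (ht : 0 ≤ t) : ‖T t‖ ≤ 1 := by
  rcases ht.eq_or_lt with h0 | h0
  · rw [← h0, T_zero h]
    exact ContinuousLinearMap.norm_id_le
  · exact (gap0 h h0 one_pos (by linarith [Real.pi_gt_three])).2.1

lemma T_inner {t : ℝ} (ht : 0 ≤ t) (x y : H) : inner ℂ (T t x) y = inner ℂ x (T t y) :=
  (ContinuousLinearMap.isSelfAdjoint_iff_isSymmetric.1 (T_sa h ht)) x y

lemma T_pos {t : ℝ} (ht : 0 ≤ t) : (T t).IsPositive := by
  have h2 : T t = T (t / 2) * T (t / 2) := by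
    rw [← T_add h (by linarith) (by linarith)]
    congr 1
    ring
  rw [ContinuousLinearMap.isPositive_def']
  refine ⟨T_sa h ht, fun x => ?_⟩
  rw [ContinuousLinearMap.reApplyInnerSelf_apply, h2]
  show 0 ≤ RCLike.re (inner ℂ (T (t / 2) (T (t / 2) x)) x)
  rw [T_inner h (by linarith : 0 ≤ t / 2)]
  exact inner_self_nonneg

lemma T_vac {t : ℝ} (ht : 0 ≤ t) : T t (J 0) = J 0 := by
  rw [h.transfer t ht 0 Half.zero]
  rfl

lemma J_norm : ‖J 0‖ = 1 := (gap0 h one_pos one_pos (by linarith [Real.pi_gt_three])).2.2.2.1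

/-- matrix elements are continuous in the time -/
lemma T_inner_cont (F : AA n i) :
    ContinuousOn (fun t => inner ℂ (Jl i J F) (T t (Jl i J F))) (Ici 0) := by
  have h1 : Continuous fun u : ℝ => F.sum fun a x => F.sum fun b y =>
      conj x * y * ((Real.exp (-Vr (shift i u b.1 - refl i a.1) / 2) : ℝ) : ℂ) := by
    unfold Finsupp.sum
    refine continuous_finsetSum _ fun a _ => continuous_finsetSum _ fun b _ => ?_
    exact continuous_const.mul (Complex.continuous_ofReal.comp (Gk_cont a b))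
  refine h1.continuousOn.congr fun t (ht : 0 ≤ t) => ?_
  rw [T_Jl h ht, Jl_inner h, sum_mapDomain]
  rfl

lemma T_cont (x : H) : ContinuousOn (fun t => T t x) (Ici 0) := by
  -- first for the vectors of the dense set
  have h1 : ∀ F : AA n i, ContinuousOn (fun t => T t (Jl i J F)) (Ici 0) := by
    intro F t₀ ht₀
    unfold ContinuousWithinAt
    rw [tendsto_iff_norm_sub_tendsto_zero]
    set x := Jl i J F with hx
    have hm := T_inner_cont h F
    have e1 : ∀ s t : ℝ, 0 ≤ s → 0 ≤ t → inner ℂ (T s x) (T t x) = inner ℂ x (T (s + t) x) := by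
      intro s t hs ht
      rw [T_inner h hs, T_add h hs ht]
      rfl
    have e2 : ∀ t : ℝ, 0 ≤ t → ‖T t x - T t₀ x‖ ^ 2 = (inner ℂ x (T (t + t) x)).re -
        2 * (inner ℂ x (T (t + t₀) x)).re + (inner ℂ x (T (t₀ + t₀) x)).re := by
      intro t ht
      rw [@norm_sub_sq ℂ, e1 t t₀ ht ht₀]
      rw [← e1 t t ht ht, ← e1 t₀ t₀ ht₀ ht₀]
      have a1 := @inner_self_eq_norm_sq ℂ _ _ _ _ (T t x)
      have a2 := @inner_self_eq_norm_sq ℂ _ _ _ _ (T t₀ x)
      rw [← a1, ← a2]
      rfl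
    have hre : ContinuousOn (fun t => (inner ℂ x (T t x)).re) (Ici 0) :=
      Complex.continuous_re.comp_continuousOn hm
    have c1 : ContinuousWithinAt (fun t => (inner ℂ x (T (t + t) x)).re) (Ici 0) t₀ := by
      have : ContinuousOn (fun t => (inner ℂ x (T (t + t) x)).re) (Ici 0) :=
        hre.comp (f := fun t : ℝ => t + t) (by fun_prop) fun t (ht : 0 ≤ t) =>
          (add_nonneg ht ht : 0 ≤ t + t)
      exact this t₀ ht₀
    have c2 : ContinuousWithinAt (fun t => (inner ℂ x (T (t + t₀) x)).re) (Ici 0) t₀ := by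
      have : ContinuousOn (fun t => (inner ℂ x (T (t + t₀) x)).re) (Ici 0) :=
        hre.comp (f := fun t : ℝ => t + t₀) (by fun_prop) fun t (ht : 0 ≤ t) =>
          (add_nonneg ht ht₀ : 0 ≤ t + t₀)
      exact this t₀ ht₀
    have c3 : Tendsto (fun t => ‖T t x - T t₀ x‖ ^ 2) (𝓝[Ici 0] t₀) (𝓝 0) := by
      have c4 : Tendsto (fun t => (inner ℂ x (T (t + t) x)).re - 2 * (inner ℂ x (T (t + t₀) x)).re +
          (inner ℂ x (T (t₀ + t₀) x)).re) (𝓝[Ici 0] t₀) (𝓝 ((inner ℂ x (T (t₀ + t₀) x)).re -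
          2 * (inner ℂ x (T (t₀ + t₀) x)).re + (inner ℂ x (T (t₀ + t₀) x)).re)) :=
        ((c1.sub (c2.const_mul 2)).add_const _)
      have c5 : (inner ℂ x (T (t₀ + t₀) x)).re - 2 * (inner ℂ x (T (t₀ + t₀) x)).re +
          (inner ℂ x (T (t₀ + t₀) x)).re = 0 := by ring
      rw [c5] at c4
      refine c4.congr' ?_
      filter_upwards [self_mem_nhdsWithin] with t ht
      exact (e2 t ht).symm
    have c6 := c3.sqrt
    rw [Real.sqrt_zero] at c6
    refine c6.congr fun t => ?_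
    exact Real.sqrt_sq (norm_nonneg _)
  -- then for all
  intro t₀ ht₀
  rw [Metric.continuousWithinAt_iff']
  intro ε hε
  obtain ⟨F, hF⟩ := Metric.denseRange_iff.1 (Jl_dense h) x (ε / 4) (by positivity)
  have h2 := (Metric.continuousWithinAt_iff'.1 (h1 F t₀ ht₀)) (ε / 4) (by positivity)
  filter_upwards [h2, self_mem_nhdsWithin] with t ht ht0
  have b : ∀ s : ℝ, 0 ≤ s → dist (T s x) (T s (Jl i J F)) ≤ dist x (Jl i J F) := by
    intro s hs
    rw [dist_eq_norm, dist_eq_norm, ← map_sub]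
    have := (T s).le_of_opNorm_le (T_norm h hs) (x - Jl i J F)
    rwa [one_mul] at this
  have b1 := b t ht0
  have b2 := b t₀ ht₀
  have b3 := dist_triangle (T t x) (T t (Jl i J F)) (T t₀ x)
  have b4 := dist_triangle (T t (Jl i J F)) (T t₀ (Jl i J F)) (T t₀ x)
  rw [dist_comm (T t₀ (Jl i J F)) (T t₀ x)] at b4
  linarith

/-- **The semigroup.** -/
theorem isSemi : IsSemi T (J 0) :=
  ⟨T_zero h, fun _ _ hs ht => T_add h hs ht, T_cont h, fun _ ht => T_pos h ht,
    fun _ ht => T_norm h ht, fun _ ht => T_vac h ht, J_norm h⟩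

/-- **The mass gap is at least `π / 2`.** -/
theorem gap_ge {t : ℝ} (ht : 0 ≤ t) {x : H} (hx : inner ℂ (J 0) x = 0) :
    ‖T t x‖ ≤ Real.exp (-(Real.pi / 2 * t)) * ‖x‖ := by
  rcases ht.eq_or_lt with h0 | h0
  · rw [← h0, T_zero h, mul_zero, neg_zero, Real.exp_zero, one_mul]
    rfl
  · have h1 : Tendsto (fun k : ℕ => Real.exp (-((Real.pi / 2 - 1 / ((k : ℝ) + 1)) * t)) * ‖x‖) atTop
        (𝓝 (Real.exp (-((Real.pi / 2 - 0) * t)) * ‖x‖)) := by
      refine Tendsto.mul_const _ ((Real.continuous_exp.tendsto _).comp ?_)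
      exact ((tendsto_const_nhds.sub tendsto_one_div_add_atTop_nhds_zero_nat).mul_const t).neg
    rw [sub_zero] at h1
    refine ge_of_tendsto' h1 fun k => ?_
    have hk : 0 < 1 / ((k : ℝ) + 1) := by positivity
    have hk2 : 1 / ((k : ℝ) + 1) ≤ 1 := by
      rw [div_le_one (by positivity)]
      have : (0 : ℝ) ≤ k := Nat.cast_nonneg k
      linarith
    exact (gap0 h h0 (m := Real.pi / 2 - 1 / ((k : ℝ) + 1))
      (by linarith [Real.pi_gt_three]) (by linarith)).2.2.2.2 x hx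

end rep

/-! ### existence -/

/-- the norm of the vector of the translated observable -/
lemma norm_ta_le {H : Type} [NormedAddCommGroup H] [InnerProductSpace ℂ H]
    (J : AA n i →ₗ[ℂ] H) (hin : ∀ F F', inner ℂ (J F) (J F') = Bk F F') {t : ℝ} (ht : 0 ≤ t)
    (F : AA n i) : ‖J (ta t ht F)‖ ≤ ‖J F‖ := by
  have h1 := Pool.Agent.N986.SL.OSaux.norm_J0τ_le (osForm (n := n) (i := i) ht) (Bk_bdd ht) F
  have h2 : ∀ F, ‖J F‖ = ‖Pool.Agent.N986.SL.OSaux.J0 (osForm (n := n) (i := i) ht) F‖ := by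
    intro F
    have a1 := @inner_self_eq_norm_sq ℂ _ _ _ _ (J F)
    have a2 := @inner_self_eq_norm_sq ℂ _ _ _ _
      (Pool.Agent.N986.SL.OSaux.J0 (osForm (n := n) (i := i) ht) F)
    rw [hin] at a1
    rw [Pool.Agent.N986.SL.OSaux.inner_J0] at a2
    have a3 : ‖J F‖ ^ 2 = ‖Pool.Agent.N986.SL.OSaux.J0 (osForm (n := n) (i := i) ht) F‖ ^ 2 := by
      rw [← a1, ← a2]
    exact (pow_left_inj₀ (norm_nonneg _) (norm_nonneg _) two_ne_zero).1 a3
  rw [h2, h2]
  exact h1

/-- a test function in the half space -/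
def mkH (f : TD n D) (hf : Half i f) : HT n i := ⟨f, hf⟩

lemma Bk_single (a b : HT n i) : Bk (Finsupp.single a 1) (Finsupp.single b 1) = (Gk a b : ℂ) := by
  unfold Bk
  rw [Finsupp.sum_single_index, Finsupp.sum_single_index, map_one, one_mul, one_mul]
  · simp
  · simp

/-- **Existence of the reconstruction.** -/
theorem exists_isOS (n : ℕ) (i : Fin D) :
    ∃ (H : Type) (_ : NormedAddCommGroup H) (_ : InnerProductSpace ℂ H) (_ : CompleteSpace H)
      (T : ℝ → H →L[ℂ] H) (J : TD n D → H), IsOS i Sc T J := by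
  obtain ⟨H, i1, i2, i3, J, T0, hd, hin, -⟩ := exists_os (osForm (n := n) (i := i) le_rfl)
    (Bk_bdd le_rfl)
  set T : ℝ → H →L[ℂ] H := fun t =>
    if ht : 0 ≤ t then (J ∘ₗ ta t ht).extendOfNorm J else 0 with hT
  have hTJ : ∀ (t : ℝ) (ht : 0 ≤ t) (F : AA n i), T t (J F) = J (ta t ht F) := by
    intro t ht F
    rw [hT]
    simp only
    rw [dif_pos ht, LinearMap.extendOfNorm_eq hd ⟨1, fun x => by
      rw [one_mul]
      exact norm_ta_le J hin ht x⟩]
    rfl
  refine ⟨H, i1, i2, i3, T, fun f => if hf : Half i f then J (Finsupp.single (mkH f hf) 1) else 0,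
    ⟨?_, ?_, ?_⟩⟩
  · intro f g hf hg
    rw [dif_pos hf, dif_pos hg, hin, Bk_single]
    rfl
  · have h1 : Set.range J ⊆ (Submodule.span ℂ ((fun f => if hf : Half i f then
        J (Finsupp.single (mkH f hf) 1) else 0) '' {f | Half i f}) : Set H) := by
      rintro _ ⟨F, rfl⟩
      have h2 : J F = F.sum fun a x => x • J (Finsupp.single a 1) := by
        conv_lhs => rw [← Finsupp.sum_single F]
        rw [map_finsuppSum]
        refine Finsupp.sum_congr fun a _ => ?_
        rw [← map_smul, Finsupp.smul_single, smul_eq_mul, mul_one]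
      rw [h2]
      refine Submodule.sum_mem _ fun a _ => Submodule.smul_mem _ _ (Submodule.subset_span ?_)
      refine ⟨a.1, a.2, ?_⟩
      simp only
      rw [dif_pos a.2]
      rfl
    exact Dense.mono h1 hd
  · intro t ht f hf
    rw [dif_pos hf, dif_pos (hf.shift ht), hTJ t ht]
    unfold ta
    rw [Finsupp.lmapDomain_apply, Finsupp.mapDomain_single]
    rfl

end

end Pool.Agent.N990.OS
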